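import Pool.Agent.P.MP_d483fb_an.Z.Avg.Cvx

/-!
Measures on a proper extension that project to a given invariant measure: averaging along
commuting elements and ergodic maximisers.
-/

open scoped Topology NNReal ENNReal BoundedContinuousFunction ProbabilityTheory
open MeasureTheory Filter Set

noncomputable section

namespace Pool.Agent.P.MP_d483fb_an.Z

section Coc

variable {G Z : Type} [Group G] [TopologicalSpace Z] [MeasurableSpace Z] [BorelSpace Z]
  [MulAction G Z] {F : G → Z → ℝ}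

/-- The cocycle at a fixed group element as a bounded continuous function. -/
def SubCoc.bcf (hF : SubCoc F) (g : G) : Z →ᵇ ℝ :=
  BoundedContinuousFunction.ofNormedAddCommGroup (F g) (hF.cont g) (hF.bd g).choose
    (hF.bd g).choose_spec

theorem SubCoc.integrable (hF : SubCoc F) (g : G) (ν : Measure Z) [IsFiniteMeasure ν] :
    Integrable (F g) ν := (hF.bcf g).integrable ν

theorem SubCoc.continuous_integral (hF : SubCoc F) (g : G) :
    Continuous fun ν : ProbabilityMeasure Z => ∫ z, F g z ∂(ν : Measure Z) :=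
  ProbabilityMeasure.continuous_integral_boundedContinuousFunction (hF.bcf g)

omit [MeasurableSpace Z] [BorelSpace Z] in
theorem SubCoc.one_nonneg (hF : SubCoc F) (z : Z) : 0 ≤ F 1 z := by
  have := hF.sub 1 1 z
  rw [one_mul, one_smul] at this
  linarith

omit [MeasurableSpace Z] [BorelSpace Z] in
theorem SubCoc.pow_le (hF : SubCoc F) {a : G} {C : ℝ} (hC : ∀ z, F a z ≤ C) (j : ℕ) (z : Z) :
    F (a ^ (j + 1)) z ≤ (j + 1) * C := by
  induction j generalizing z with
  | zero => simpa using hC z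
  | succ j ih =>
    have h1 := hF.sub (a ^ (j + 1)) a z
    rw [← pow_succ] at h1
    have h2 := ih (a • z)
    have h3 := hC z
    push_cast
    linarith

omit [MeasurableSpace Z] [BorelSpace Z] in
theorem SubCoc.exists_abs_pow_le (hF : SubCoc F) (a : G) :
    ∃ C, 0 ≤ C ∧ ∀ (j : ℕ) (z : Z), |F (a ^ j) z / j| ≤ C := by
  obtain ⟨C₁, h₁⟩ := hF.bd a
  obtain ⟨C₂, h₂⟩ := hF.bd a⁻¹
  refine ⟨|C₁| + |C₂|, by positivity, fun j z => ?_⟩
  rcases j with _ | j
  · simp only [Nat.cast_zero, div_zero, abs_zero]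
    positivity
  have hj : (0 : ℝ) < (j + 1 : ℕ) := by positivity
  rw [abs_div, abs_of_pos hj, div_le_iff₀ hj, abs_le]
  have h3 := hF.pow_le (fun z => ((le_abs_self _).trans (h₁ z)).trans (le_abs_self C₁)) j z
  have h4 := hF.pow_le (fun z => ((le_abs_self _).trans (h₂ z)).trans (le_abs_self C₂)) j
    (a ^ (j + 1) • z)
  have h5 := hF.sub (a⁻¹ ^ (j + 1)) (a ^ (j + 1)) z
  rw [inv_pow, inv_mul_cancel, ← inv_pow] at h5
  have h6 := hF.one_nonneg z
  have h7 : (0 : ℝ) ≤ (j + 1) * |C₁| := by positivity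
  have h8 : (0 : ℝ) ≤ (j + 1) * |C₂| := by positivity
  push_cast
  constructor <;> nlinarith

/-- The growth rate of the cocycle along the powers of `a`. -/
def lam (F : G → Z → ℝ) (a : G) (ν : Measure Z) : ℝ :=
  sInf ((fun n : ℕ => (∫ z, F (a ^ n) z ∂ν) / n) '' Ici 1)

omit [BorelSpace Z] in
theorem SubCoc.bddBelow (hF : SubCoc F) (a : G) (ν : Measure Z) [IsProbabilityMeasure ν] :
    BddBelow (range fun n : ℕ => (∫ z, F (a ^ n) z ∂ν) / n) := by
  obtain ⟨C, -, hC⟩ := hF.exists_abs_pow_le a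
  refine ⟨-C, ?_⟩
  rintro _ ⟨n, rfl⟩
  have := norm_integral_le_of_norm_le_const (μ := ν) (f := fun z => F (a ^ n) z / n)
    (Eventually.of_forall fun z => hC n z)
  rw [integral_div, probReal_univ, mul_one, Real.norm_eq_abs] at this
  exact (abs_le.1 this).1

omit [BorelSpace Z] in
theorem SubCoc.pos_iff_le_lam (hF : SubCoc F) (a : G) (ν : Measure Z) [IsProbabilityMeasure ν]
    (e : ℝ) : Pos F e a ν ↔ e ≤ lam F a ν := by
  have hb : BddBelow ((fun n : ℕ => (∫ z, F (a ^ n) z ∂ν) / n) '' Ici 1) :=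
    (hF.bddBelow a ν).mono (image_subset_range _ _)
  constructor
  · intro h
    refine le_csInf (nonempty_Ici.image _) ?_
    rintro _ ⟨n, hn, rfl⟩
    have hn' : (0 : ℝ) < n := by exact_mod_cast hn
    exact (le_div_iff₀ hn').2 (h n)
  · intro h j
    rcases Nat.eq_zero_or_pos j with rfl | hj
    · simp only [Nat.cast_zero, mul_zero, pow_zero]
      exact integral_nonneg hF.one_nonneg
    have hj' : (0 : ℝ) < j := by exact_mod_cast hj
    exact (le_div_iff₀ hj').1 (h.trans (csInf_le hb ⟨j, hj, rfl⟩))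

variable [ContinuousConstSMul G Z]

theorem SubCoc.integral_smul (hF : SubCoc F) {ν : Measure Z} {a : G} (ha : a ∈ Stab G ν) (g : G) :
    ∫ z, F g (a • z) ∂ν = ∫ z, F g z ∂ν := by
  conv_rhs => rw [← (mem_stab_iff.1 ha).map_eq]
  rw [integral_map (measurable_const_smul a).aemeasurable (hF.cont g).aestronglyMeasurable]

theorem SubCoc.integrable_smul (hF : SubCoc F) (g a : G) (ν : Measure Z) [IsFiniteMeasure ν] :
    Integrable (fun z => F g (a • z)) ν :=
  ((hF.bcf g).compContinuous ⟨fun z => a • z, continuous_const_smul a⟩).integrable ν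

theorem SubCoc.integral_mul_le (hF : SubCoc F) {ν : Measure Z} [IsFiniteMeasure ν] (g : G) {a : G}
    (ha : a ∈ Stab G ν) : ∫ z, F (g * a) z ∂ν ≤ ∫ z, F g z ∂ν + ∫ z, F a z ∂ν := by
  rw [← hF.integral_smul ha g, ← integral_add (hF.integrable_smul g a ν) (hF.integrable a ν)]
  exact integral_mono (hF.integrable _ ν) ((hF.integrable_smul g a ν).add (hF.integrable a ν))
    fun z => hF.sub g a z

theorem SubCoc.subadditive (hF : SubCoc F) {ν : Measure Z} [IsFiniteMeasure ν] {a : G}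
    (ha : a ∈ Stab G ν) : Subadditive fun n : ℕ => ∫ z, F (a ^ n) z ∂ν := by
  intro m n
  simp only [pow_add]
  exact hF.integral_mul_le _ ((Stab G ν).pow_mem ha n)

theorem SubCoc.tendsto_lam (hF : SubCoc F) {ν : Measure Z} [IsProbabilityMeasure ν] {a : G}
    (ha : a ∈ Stab G ν) :
    Tendsto (fun n : ℕ => (∫ z, F (a ^ n) z ∂ν) / n) atTop (𝓝 (lam F a ν)) := by
  have := (hF.subadditive ha).tendsto_lim (hF.bddBelow a ν)
  rwa [Subadditive.lim] at this

theorem SubCoc.pos_of_approx (hF : SubCoc F) {ν : Measure Z} [IsProbabilityMeasure ν] {a : G}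
    (ha : a ∈ Stab G ν) {e C : ℝ} (h : ∀ j : ℕ, e * j - C ≤ ∫ z, F (a ^ j) z ∂ν) :
    Pos F e a ν := by
  rw [hF.pos_iff_le_lam]
  have h1 : Tendsto (fun n : ℕ => e - C / n) atTop (𝓝 (e - 0)) :=
    tendsto_const_nhds.sub (tendsto_const_div_atTop_nhds_zero_nat C)
  rw [sub_zero] at h1
  refine le_of_tendsto_of_tendsto h1 (hF.tendsto_lam ha) ?_
  filter_upwards [eventually_ge_atTop 1] with n hn
  have hn' : (0 : ℝ) < n := by exact_mod_cast hn
  rw [le_div_iff₀ hn', sub_mul, div_mul_cancel₀ _ hn'.ne']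
  exact h n

theorem SubCoc.lam_eq (hF : SubCoc F) {ν : Measure Z} [IsProbabilityMeasure ν] {a : G}
    (ha : a ∈ Stab G ν) {l : ℝ}
    (hl : ∀ᵐ z ∂ν, Tendsto (fun j : ℕ => F (a ^ j) z / j) atTop (𝓝 l)) : lam F a ν = l := by
  obtain ⟨C, -, hC⟩ := hF.exists_abs_pow_le a
  have h := tendsto_integral_of_dominated_convergence (μ := ν)
    (F := fun (j : ℕ) z => F (a ^ j) z / j) (f := fun _ => l) (fun _ => C)
    (fun j => ((hF.cont _).div_const _).aestronglyMeasurable) (integrable_const C)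
    (fun j => Eventually.of_forall fun z => hC j z) hl
  simp only [integral_div, integral_const, probReal_univ, one_smul] at h
  exact tendsto_nhds_unique (hF.tendsto_lam ha) h

/-- (A8) -/
theorem SubCoc.pos_iff (hF : SubCoc F) {ν : Measure Z} [IsProbabilityMeasure ν] {a : G}
    (ha : a ∈ Stab G ν) {lam : ℝ}
    (hlam : ∀ᵐ z ∂ν, Tendsto (fun j : ℕ => F (a ^ j) z / j) atTop (𝓝 lam)) (e : ℝ) :
    Pos F e a ν ↔ e ≤ lam := by
  rw [hF.pos_iff_le_lam, hF.lam_eq ha hlam]

omit [ContinuousConstSMul G Z] in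
theorem SubCoc.integral_mix (hF : SubCoc F) {ν ν' ρ : ProbabilityMeasure Z} {s t : ℝ≥0}
    (hρ : (ρ : Measure Z) = s • (ν : Measure Z) + t • (ν' : Measure Z)) (g : G) :
    ∫ z, F g z ∂(ρ : Measure Z) =
      s * ∫ z, F g z ∂(ν : Measure Z) + t * ∫ z, F g z ∂(ν' : Measure Z) :=
  congrFun (emb_mix hρ) (hF.bcf g)

theorem SubCoc.lam_mix (hF : SubCoc F) {ν ν' ρ : ProbabilityMeasure Z} {s t : ℝ≥0}
    (hρ : (ρ : Measure Z) = s • (ν : Measure Z) + t • (ν' : Measure Z)) {a : G}
    (h0 : a ∈ Stab G (ρ : Measure Z)) (h1 : a ∈ Stab G (ν : Measure Z))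
    (h2 : a ∈ Stab G (ν' : Measure Z)) :
    lam F a (ρ : Measure Z) = s * lam F a (ν : Measure Z) + t * lam F a (ν' : Measure Z) := by
  refine tendsto_nhds_unique (hF.tendsto_lam h0) ?_
  refine (((hF.tendsto_lam h1).const_mul (s : ℝ)).add
    ((hF.tendsto_lam h2).const_mul (t : ℝ))).congr fun n => ?_
  rw [hF.integral_mix hρ]
  ring

omit [ContinuousConstSMul G Z] in
theorem SubCoc.isClosed_pos (hF : SubCoc F) (e : ℝ) (a : G) :
    IsClosed {ν : ProbabilityMeasure Z | Pos F e a (ν : Measure Z)} := by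
  simp only [Pos, ofPred_forall]
  exact isClosed_iInter fun j => isClosed_le continuous_const (hF.continuous_integral _)

omit [ContinuousConstSMul G Z] in
theorem SubCoc.cvx_pos (hF : SubCoc F) (e : ℝ) (a : G) :
    Cvx {ν : ProbabilityMeasure Z | Pos F e a (ν : Measure Z)} := by
  intro ν hν ν' hν' s t hst ρ hρ j
  rw [hF.integral_mix hρ]
  have h1 : (s : ℝ) + t = 1 := by exact_mod_cast hst
  have h2 := mul_le_mul_of_nonneg_left (hν j) s.2
  have h3 := mul_le_mul_of_nonneg_left (hν' j) t.2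
  simp only [NNReal.val_eq_coe] at h2 h3
  calc e * j = s * (e * j) + t * (e * j) := by rw [← add_mul, h1, one_mul]
    _ ≤ _ := add_le_add h2 h3

/-- Translating an invariant measure by a commuting element keeps the growth rate. -/
theorem SubCoc.pos_map (hF : SubCoc F) {ν : Measure Z} [IsProbabilityMeasure ν] {a c : G}
    (hac : Commute a c) (ha : a ∈ Stab G (ν.map fun z => c • z)) {e : ℝ} (hp : Pos F e a ν) :
    Pos F e a (ν.map fun z => c • z) := by
  have := Measure.isProbabilityMeasure_map (μ := ν) (measurable_const_smul c).aemeasurable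
  obtain ⟨C₁, h₁⟩ := hF.bd c⁻¹
  obtain ⟨C₂, h₂⟩ := hF.bd c
  refine hF.pos_of_approx ha (C := C₁ + C₂) fun j => ?_
  rw [integral_map (measurable_const_smul c).aemeasurable (hF.cont _).aestronglyMeasurable]
  have h3 : ∫ z, F (a ^ j) z ∂ν ≤ ∫ z, (F (a ^ j) (c • z) + (C₁ + C₂)) ∂ν := by
    refine integral_mono (hF.integrable _ ν)
      ((hF.integrable_smul _ c ν).add (integrable_const _)) fun z => ?_
    have e1 : a ^ j = c⁻¹ * (a ^ j * c) := by
      rw [(hac.pow_left j).eq, inv_mul_cancel_left]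
    have h4 := hF.sub c⁻¹ (a ^ j * c) z
    rw [← e1] at h4
    have h5 := hF.sub (a ^ j) c z
    have h6 := (le_abs_self _).trans (h₁ ((a ^ j * c) • z))
    have h7 := (le_abs_self _).trans (h₂ z)
    change F (a ^ j) z ≤ F (a ^ j) (c • z) + (C₁ + C₂)
    linarith
  rw [integral_add (hF.integrable_smul _ c ν) (integrable_const _), integral_const, probReal_univ,
    one_smul] at h3
  linarith [hp j]

end Coc

section Main

variable {G Z X : Type} [Group G]
  [TopologicalSpace Z] [T2Space Z] [HasOuterApproxClosed Z] [MeasurableSpace Z] [BorelSpace Z]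
  [MulAction G Z] [ContinuousConstSMul G Z]
  [TopologicalSpace X] [T2Space X] [HasOuterApproxClosed X] [MeasurableSpace X] [BorelSpace X]
  [MulAction G X] [ContinuousConstSMul G X]
  {μ : Measure X} [IsProbabilityMeasure μ] [SMulInvariantMeasure G X μ]
  {π : Z → X} {F : G → Z → ℝ}

omit [T2Space Z] in
theorem isClosed_stab {G : Type} [Group G] [TopologicalSpace G] [FirstCountableTopology G]
    [MulAction G Z] [ContinuousSMul G Z] (ν : Measure Z) [IsFiniteMeasure ν] :
    IsClosed (Stab G ν : Set G) := by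
  have : (Stab G ν : Set G) = ⋂ f : Z →ᵇ ℝ, {g | ∫ z, f (g • z) ∂ν = ∫ z, f z ∂ν} := by
    ext g
    simp only [SetLike.mem_coe, mem_stab_iff, mem_iInter, mem_ofPred_eq]
    constructor
    · intro h f
      conv_rhs => rw [← h.map_eq]
      rw [integral_map (measurable_const_smul g).aemeasurable f.continuous.aestronglyMeasurable]
    · intro h
      refine ⟨measurable_const_smul g, ext_of_forall_integral_eq_of_IsFiniteMeasure fun f => ?_⟩
      rw [integral_map (measurable_const_smul g).aemeasurable f.continuous.aestronglyMeasurable]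
      exact h f
  rw [this]
  refine isClosed_iInter fun f => isClosed_eq ?_ continuous_const
  refine continuous_of_dominated (bound := fun _ => ‖f‖)
    (fun g => (f.continuous.comp (continuous_const_smul g)).aestronglyMeasurable)
    (fun g => Eventually.of_forall fun z => f.norm_coe_le_norm _) (integrable_const _)
    (Eventually.of_forall fun z => f.continuous.comp (continuous_id.smul continuous_const))

/-- The `H`-invariant probability measures over `μ`. -/
def Ovr (π : Z → X) (μ : Measure X) (H : Subgroup G) : Set (ProbabilityMeasure Z) :=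
  {ν | (ν : Measure Z).map π = μ ∧ H ≤ Stab G (ν : Measure Z)}

omit [ContinuousConstSMul G X] [SMulInvariantMeasure G X μ] in
theorem IsExt.isCompact (hπ : IsExt G π μ) (H : Subgroup G) : IsCompact (Ovr π μ H) := by
  have hm : Measurable π := hπ.cont.measurable
  have hcl : IsClosed (Ovr π μ H) := by
    have e : Ovr π μ H = {ν : ProbabilityMeasure Z | ν.map hm.aemeasurable = ⟨μ, inferInstance⟩} ∩
        ⋂ h ∈ H, {ν : ProbabilityMeasure Z |
          MeasurePreserving (fun z : Z => h • z) (ν : Measure Z) ν} := by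
      ext ν
      simp only [Ovr, mem_ofPred_eq, mem_inter_iff, mem_iInter]
      refine and_congr ⟨fun h => Subtype.ext h, fun h => ?_⟩ Iff.rfl
      exact congrArg (fun ρ : ProbabilityMeasure X => (ρ : Measure X)) h
    rw [e]
    exact (isClosed_eq (ProbabilityMeasure.continuous_map hπ.cont) continuous_const).inter
      (isClosed_biInter fun h _ => isClosed_fixed (continuous_const_smul h))
  rw [← hcl.closure_eq]
  refine isCompact_closure_of_isTightMeasureSet ?_
  rw [isTightMeasureSet_iff_exists_isCompact_measure_compl_le]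
  intro ε hε
  obtain ⟨K, hK, h⟩ := isTightMeasureSet_iff_exists_isCompact_measure_compl_le.1 hπ.tight ε hε
  refine ⟨π ⁻¹' K, hπ.prop K hK, ?_⟩
  rintro _ ⟨ν, hν, rfl⟩
  rw [← preimage_compl, ← Measure.map_apply hm hK.measurableSet.compl, hν.1]
  exact h μ rfl

omit [T2Space Z] [HasOuterApproxClosed Z] [T2Space X] [HasOuterApproxClosed X]
  [ContinuousConstSMul G X] [IsProbabilityMeasure μ] [SMulInvariantMeasure G X μ] in
theorem IsExt.cvx (hπ : IsExt G π μ) (H : Subgroup G) : Cvx (Ovr π μ H) := by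
  intro ν hν ν' hν' s t hst ρ hρ
  refine ⟨?_, fun h hh => cvx_fixed ν (hν.2 hh) ν' (hν'.2 hh) s t hst ρ hρ⟩
  rw [hρ, Measure.map_add _ _ hπ.cont.measurable, Measure.map_smul, Measure.map_smul, hν.1, hν'.1,
    ← add_smul, hst, one_smul]

omit [T2Space Z] [HasOuterApproxClosed Z] [T2Space X] [HasOuterApproxClosed X]
  [IsProbabilityMeasure μ] [SMulInvariantMeasure G X μ] in
theorem IsExt.map_smul_map (hπ : IsExt G π μ) (ν : Measure Z) (c : G) :
    (ν.map fun z => c • z).map π = (ν.map π).map fun x => c • x := by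
  rw [Measure.map_map hπ.cont.measurable (measurable_const_smul c),
    Measure.map_map (measurable_const_smul c) hπ.cont.measurable]
  exact congrArg (fun f => ν.map f) (funext fun z => hπ.eqv c z)

omit [T2Space Z] [HasOuterApproxClosed Z] in
theorem mem_stab_map {ν : Measure Z} {c h : G} (hh : c⁻¹ * h * c ∈ Stab G ν) :
    h ∈ Stab G (ν.map fun z => c • z) := by
  refine ⟨measurable_const_smul h, ?_⟩
  conv_rhs => rw [← (mem_stab_iff.1 hh).map_eq]
  rw [Measure.map_map (measurable_const_smul h) (measurable_const_smul c),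
    Measure.map_map (measurable_const_smul c) (measurable_const_smul _)]
  refine congrArg (fun f => ν.map f) (funext fun z => ?_)
  simp [mul_smul]

/-- (A2) -/
theorem IsExt.average (hπ : IsExt G π μ) (hF : SubCoc F) (H : Subgroup G) (C : Set G)
    (hC : ∀ c ∈ C, ∀ c' ∈ C, Commute c c') (hCH : ∀ c ∈ C, ∀ h ∈ H, c⁻¹ * h * c ∈ H)
    {a : G} (ha : a ∈ H) (haC : ∀ c ∈ C, Commute a c) {e : ℝ}
    {ν : Measure Z} [IsProbabilityMeasure ν] (hν : ν.map π = μ) (hH : H ≤ Stab G ν)
    (hp : Pos F e a ν) :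
    ∃ ν' : Measure Z, IsProbabilityMeasure ν' ∧ ν'.map π = μ ∧ H ≤ Stab G ν' ∧
      C ⊆ Stab G ν' ∧ Pos F e a ν' := by
  obtain ⟨ρ, hρ, h⟩ := exists_fixed_all
    ((hπ.isCompact H).inter_right (hF.isClosed_pos e a)) ((hπ.cvx H).inter (hF.cvx_pos e a))
    ⟨⟨ν, inferInstance⟩, ⟨hν, hH⟩, hp⟩ (I := C) (T := fun c z => c.1 • z)
    (fun c => continuous_const_smul c.1)
    (fun c c' z => by simp only [← mul_smul, (hC c c.2 c' c'.2).eq]) (by
      rintro c ρ ⟨⟨h1, h2⟩, h3⟩
      have h4 : H ≤ Stab G ((ρ : Measure Z).map fun z => c.1 • z) :=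
        fun h hh => mem_stab_map (h2 (hCH c c.2 h hh))
      refine ⟨⟨?_, h4⟩, hF.pos_map (haC c c.2) (h4 ha) h3⟩
      change ((ρ : Measure Z).map fun z => c.1 • z).map π = μ
      rw [hπ.map_smul_map, h1]
      exact (measurePreserving_smul c.1 μ).map_eq)
  exact ⟨ρ, inferInstance, hρ.1.1, hρ.1.2, fun c hc => h ⟨c, hc⟩, hρ.2⟩

omit [T2Space Z] [HasOuterApproxClosed Z] [T2Space X] [HasOuterApproxClosed X] in
theorem IsExt.cond_mem (hπ : IsExt G π μ) {H : Subgroup G}
    (herg : ∃ h ∈ H, Ergodic (fun x : X => h • x) μ) {ρ : ProbabilityMeasure Z}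
    (hρ : ρ ∈ Ovr π μ H) {U : Set Z} (hU : MeasurableSet U)
    (hinv : ∀ h ∈ H, (fun z => h • z) ⁻¹' U =ᵐ[(ρ : Measure Z)] U) (h0 : (ρ : Measure Z) U ≠ 0) :
    (⟨(ρ : Measure Z)[|U], ProbabilityTheory.cond_isProbabilityMeasure h0⟩ :
      ProbabilityMeasure Z) ∈ Ovr π μ H := by
  have := ProbabilityTheory.cond_isProbabilityMeasure h0
  have hH : H ≤ Stab G ((ρ : Measure Z)[|U]) := by
    intro h hh
    have h1 := (mem_stab_iff.1 (hρ.2 hh)).restrict_preimage hU
    rw [Measure.restrict_congr_set (hinv h hh)] at h1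
    exact h1.smul_measure _
  refine ⟨?_, hH⟩
  obtain ⟨h, hh, he⟩ := herg
  have hm : Measurable π := hπ.cont.measurable
  change ((ρ : Measure Z)[|U]).map π = μ
  have := Measure.isProbabilityMeasure_map (μ := (ρ : Measure Z)[|U]) hm.aemeasurable
  refine he.eq_of_absolutelyContinuous ⟨measurable_const_smul h, ?_⟩ ?_
  · rw [← hπ.map_smul_map, (mem_stab_iff.1 (hH hh)).map_eq]
  · rw [← hρ.1]
    exact ProbabilityTheory.cond_absolutelyContinuous.map hm

/-- An upper semicontinuous convex functional has an ergodic maximiser. -/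
theorem IsExt.exists_erg_max (hπ : IsExt G π μ) {H : Subgroup G}
    (herg : ∃ h ∈ H, Ergodic (fun x : X => h • x) μ) {L : ProbabilityMeasure Z → ℝ}
    (husc : ∀ e, IsClosed {ν | e ≤ L ν})
    (hcv : ∀ ν ∈ Ovr π μ H, ∀ ν' ∈ Ovr π μ H, ∀ ρ ∈ Ovr π μ H, ∀ s t : ℝ≥0,
      (ρ : Measure Z) = s • (ν : Measure Z) + t • (ν' : Measure Z) → L ρ ≤ s * L ν + t * L ν')
    (hne : (Ovr π μ H).Nonempty) :
    ∃ ρ ∈ Ovr π μ H, ErgFor H (ρ : Measure Z) ∧ ∀ ν ∈ Ovr π μ H, L ν ≤ L ρ := by
  have hu : UpperSemicontinuous L := upperSemicontinuous_iff_isClosed_preimage.2 husc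
  obtain ⟨ν₀, hν₀, hmax⟩ :=
    (hu.upperSemicontinuousOn _).exists_isMaxOn hne (hπ.isCompact H)
  obtain ⟨ρ, ⟨hρ, hρm⟩, hext⟩ := exists_extreme ((hπ.isCompact H).inter_right (husc (L ν₀)))
    ⟨ν₀, hν₀, le_refl (L ν₀)⟩
  have hρm' : L ν₀ ≤ L ρ := hρm
  refine ⟨ρ, hρ, fun U hU hinv => ?_, fun ν hν => (hmax hν).trans hρm'⟩
  by_contra hcon
  rw [not_or] at hcon
  have hinv' : ∀ h ∈ H, (fun z => h • z) ⁻¹' Uᶜ =ᵐ[(ρ : Measure Z)] Uᶜ := fun h hh => by
    rw [preimage_compl]
    exact (hinv h hh).compl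
  have m1 := hπ.cond_mem herg hρ hU hinv hcon.1
  have m2 := hπ.cond_mem herg hρ hU.compl hinv' hcon.2
  set ν₁ : ProbabilityMeasure Z :=
    ⟨(ρ : Measure Z)[|U], ProbabilityTheory.cond_isProbabilityMeasure hcon.1⟩ with hν₁
  set ν₂ : ProbabilityMeasure Z :=
    ⟨(ρ : Measure Z)[|Uᶜ], ProbabilityTheory.cond_isProbabilityMeasure hcon.2⟩ with hν₂
  set s : ℝ≥0 := ((ρ : Measure Z) U).toNNReal with hs
  set t : ℝ≥0 := ((ρ : Measure Z) Uᶜ).toNNReal with ht
  have hs' : (s : ℝ≥0∞) = (ρ : Measure Z) U := ENNReal.coe_toNNReal (measure_ne_top _ _)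
  have ht' : (t : ℝ≥0∞) = (ρ : Measure Z) Uᶜ := ENNReal.coe_toNNReal (measure_ne_top _ _)
  have hs0 : 0 < s := ENNReal.toNNReal_pos hcon.1 (measure_ne_top _ _)
  have ht0 : 0 < t := ENNReal.toNNReal_pos hcon.2 (measure_ne_top _ _)
  have hst : s + t = 1 := by
    apply ENNReal.coe_injective
    rw [ENNReal.coe_add, hs', ht', measure_add_measure_compl hU, measure_univ, ENNReal.coe_one]
  have hmix : (ρ : Measure Z) = s • (ν₁ : Measure Z) + t • (ν₂ : Measure Z) := by
    change (ρ : Measure Z) = s • (ρ : Measure Z)[|U] + t • (ρ : Measure Z)[|Uᶜ]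
    rw [ENNReal.smul_def, ENNReal.smul_def, hs', ht', ProbabilityTheory.cond,
      ProbabilityTheory.cond, smul_smul, smul_smul,
      ENNReal.mul_inv_cancel hcon.1 (measure_ne_top _ _),
      ENNReal.mul_inv_cancel hcon.2 (measure_ne_top _ _), one_smul, one_smul,
      Measure.restrict_add_restrict_compl hU]
  have h1 := hcv ν₁ m1 ν₂ m2 ρ hρ s t hmix
  have h2 : L ν₁ ≤ L ν₀ := hmax m1
  have h3 : L ν₂ ≤ L ν₀ := hmax m2
  have hst' : (s : ℝ) + t = 1 := by exact_mod_cast hst
  have hs1 : (0 : ℝ) < s := hs0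
  have ht1 : (0 : ℝ) < t := ht0
  have h4 : L ν₀ = s * L ν₀ + t * L ν₀ := by rw [← add_mul, hst', one_mul]
  have h5 : L ν₀ ≤ L ν₁ := by
    refine le_of_mul_le_mul_left ?_ hs1
    nlinarith [mul_le_mul_of_nonneg_left h3 ht1.le]
  have h6 : L ν₀ ≤ L ν₂ := by
    refine le_of_mul_le_mul_left ?_ ht1
    nlinarith [mul_le_mul_of_nonneg_left h2 hs1.le]
  have h7 := hext ν₁ ⟨m1, h5⟩ ν₂ ⟨m2, h6⟩ s t hs0 ht0 hst hmix
  apply hcon.2
  rw [← h7]
  change (ρ : Measure Z)[|U] Uᶜ = 0
  rw [ProbabilityTheory.cond_apply hU, inter_compl_self, measure_empty, mul_zero]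

/-- (A6) -/
theorem IsExt.exists_erg (hπ : IsExt G π μ) (hF : SubCoc F) (H : Subgroup G)
    (herg : ∃ h ∈ H, Ergodic (fun x : X => h • x) μ) {a : G} (ha : a ∈ H) {e : ℝ}
    {ν : Measure Z} [IsProbabilityMeasure ν] (hν : ν.map π = μ) (hH : H ≤ Stab G ν)
    (hp : Pos F e a ν) :
    ∃ ν' : Measure Z, IsProbabilityMeasure ν' ∧ ν'.map π = μ ∧ H ≤ Stab G ν' ∧
      ErgFor H ν' ∧ Pos F e a ν' := by
  obtain ⟨ρ, hρ, he, hmax⟩ := hπ.exists_erg_max herg
    (L := fun ρ : ProbabilityMeasure Z => lam F a (ρ : Measure Z))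
    (fun e => by
      have := hF.isClosed_pos e a
      simpa only [hF.pos_iff_le_lam] using this)
    (fun ν₁ h₁ ν₂ h₂ ρ h₀ s t hρ => (hF.lam_mix hρ (h₀.2 ha) (h₁.2 ha) (h₂.2 ha)).le)
    ⟨⟨ν, inferInstance⟩, hν, hH⟩
  refine ⟨ρ, inferInstance, hρ.1, hρ.2, he, (hF.pos_iff_le_lam a _ e).2 ?_⟩
  exact ((hF.pos_iff_le_lam a ν e).1 hp).trans (hmax ⟨ν, inferInstance⟩ ⟨hν, hH⟩)

/-- (A7) -/
theorem IsExt.mem_stab_of_erg (hπ : IsExt G π μ) (H : Subgroup G)
    (herg : ∃ h ∈ H, Ergodic (fun x : X => h • x) μ) {g : G}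
    (hg : ∀ ν : Measure Z, IsProbabilityMeasure ν → ν.map π = μ → H ≤ Stab G ν → ErgFor H ν →
      g ∈ Stab G ν)
    {ν : Measure Z} [IsProbabilityMeasure ν] (hν : ν.map π = μ) (hH : H ≤ Stab G ν) :
    g ∈ Stab G ν := by
  have key : ∀ f : Z →ᵇ ℝ, ∫ z, f (g • z) ∂ν ≤ ∫ z, f z ∂ν := by
    intro f
    let f' : Z →ᵇ ℝ := f.compContinuous ⟨fun z => g • z, continuous_const_smul g⟩
    obtain ⟨ρ, hρ, he, hmax⟩ := hπ.exists_erg_max herg
      (L := fun ρ : ProbabilityMeasure Z => emb ρ f' - emb ρ f)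
      (fun e => isClosed_le continuous_const
        (((continuous_apply f').comp continuous_emb).sub
          ((continuous_apply f).comp continuous_emb)))
      (fun ν₁ _ ν₂ _ ρ _ s t hρ => by
        rw [emb_mix hρ]
        simp only [Pi.add_apply, Pi.smul_apply, smul_eq_mul]
        linarith)
      ⟨⟨ν, inferInstance⟩, hν, hH⟩
    have h1 := mem_stab_iff.1 (hg ρ inferInstance hρ.1 hρ.2 he)
    have h2 : emb ρ f = emb ρ f' := by
      simp only [emb]
      conv_lhs => rw [← h1.map_eq]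
      rw [integral_map (measurable_const_smul g).aemeasurable f.continuous.aestronglyMeasurable]
      rfl
    have h3 := hmax ⟨ν, inferInstance⟩ ⟨hν, hH⟩
    rw [h2, sub_self, sub_nonpos] at h3
    exact h3
  refine ⟨measurable_const_smul g, ext_of_forall_integral_eq_of_IsFiniteMeasure fun f => ?_⟩
  rw [integral_map (measurable_const_smul g).aemeasurable f.continuous.aestronglyMeasurable]
  refine le_antisymm (key f) ?_
  have := key (-f)
  simp only [BoundedContinuousFunction.coe_neg, Pi.neg_apply, integral_neg, neg_le_neg_iff] at this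
  exact this

end Main

end Pool.Agent.P.MP_d483fb_an.Z
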