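import Pool.Agent.P.MP_d483fb_an.Z.Avg.Solv
import Pool.Agent.P.MP_d483fb_an.Z.Avg.Over
import Pool.Agent.P.MP_d483fb_an.Z.Erg.Mautner

/-!
An `A N`-invariant, `A`-ergodic probability measure over the invariant measure of the base.
-/

open scoped Topology InnerProductSpace RealInnerProductSpace
open MeasureTheory Filter Set TopologicalSpace

noncomputable section

namespace Pool.Agent.P.MP_d483fb_an.Z

variable {G Z X : Type} [Group G] [TopologicalSpace G] [IsTopologicalGroup G]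
  [FirstCountableTopology G] {n k : ℕ}
  [TopologicalSpace Z] [T2Space Z] [PseudoMetrizableSpace Z] [MeasurableSpace Z] [BorelSpace Z]
  [MulAction G Z] [ContinuousSMul G Z]
  [TopologicalSpace X] [T2Space X] [HasOuterApproxClosed X] [MeasurableSpace X] [BorelSpace X]
  [MulAction G X] [ContinuousConstSMul G X]
  {μ : Measure X} [IsProbabilityMeasure μ] [SMulInvariantMeasure G X μ] {π : Z → X}

/-- Every set that is almost invariant under the Cartan subgroup is null or conull. -/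
def Std.AErg {G Z : Type} [Group G] [TopologicalSpace G] {n k : ℕ} (D : Std G n k)
    [MeasurableSpace Z] [MulAction G Z] (ν : Measure Z) : Prop :=
  ∀ U : Set Z, MeasurableSet U → (∀ s, (fun z => D.a s • z) ⁻¹' U =ᵐ[ν] U) → ν U = 0 ∨ ν Uᶜ = 0

theorem subCoc_zero {G Z : Type} [Group G] [TopologicalSpace Z] [MulAction G Z] :
    SubCoc (fun (_ : G) (_ : Z) => (0 : ℝ)) :=
  ⟨fun _ => continuous_const, fun _ _ _ => by simp, fun _ => ⟨0, fun _ => by simp⟩⟩

theorem pos_zero {G Z : Type} [Group G] [MeasurableSpace Z] (a : G) (ν : Measure Z) :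
    Pos (fun (_ : G) (_ : Z) => (0 : ℝ)) 0 a ν := fun j => by simp

omit [IsTopologicalGroup G] in
theorem IsExt.fam (hπ : IsExt G π μ) :
    Fam {Q | ∃ ν : Measure Z, IsProbabilityMeasure ν ∧ ν.map π = μ ∧ Q = Stab G ν} where
  closed := by
    rintro _ ⟨ν, hν, -, rfl⟩
    exact isClosed_stab ν
  add := by
    rintro _ ⟨ν, hν, h, rfl⟩ H hH C hC hCH
    obtain ⟨ν', h1, h2, h3, h4, -⟩ := hπ.average subCoc_zero H C hC hCH H.one_mem
      (fun c _ => Commute.one_left c) h hH (pos_zero 1 ν)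
    exact ⟨_, ⟨ν', h1, h2, rfl⟩, h3, h4⟩

/-- There is an `A N`-invariant and `A`-ergodic probability measure over `μ`. -/
theorem Std.exists_AN (D : Std G n k) (hπ : IsExt G π μ)
    (h0 : ∃ ν : Measure Z, IsProbabilityMeasure ν ∧ ν.map π = μ)
    (herg : ∃ s, Ergodic (fun x : X => D.a s • x) μ) (P : Euc k) :
    ∃ ν : Measure Z, IsProbabilityMeasure ν ∧ ν.map π = μ ∧ (∀ s, D.a s ∈ Stab G ν) ∧
      D.N P ≤ Stab G ν ∧ D.AErg ν := by
  obtain ⟨ν₀, h₀, h₀'⟩ := h0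
  obtain ⟨_, ⟨ν₁, h₁, h₁', rfl⟩, hN, hA⟩ := D.fam_AN hπ.fam ⟨_, ν₀, h₀, h₀', rfl⟩ P
  obtain ⟨s₀, hs₀⟩ := herg
  let H : Subgroup G := D.N P ⊔ Subgroup.closure (range D.a)
  have hAH : ∀ s, D.a s ∈ H := fun s => Subgroup.mem_sup_right (Subgroup.subset_closure ⟨s, rfl⟩)
  obtain ⟨ν, h1, h2, h3, h4, -⟩ := hπ.exists_erg subCoc_zero H ⟨_, hAH s₀, hs₀⟩ H.one_mem h₁'
    (sup_le hN ((Subgroup.closure_le _).mpr (range_subset_iff.mpr hA))) (pos_zero 1 ν₁)
  refine ⟨ν, h1, h2, fun s => h3 (hAH s), le_sup_left.trans h3, fun U hU hinv => ?_⟩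
  have hA' : ∀ s, D.a s ∈ stabSet G ν U := fun s => mem_stabSet.mpr ⟨h3 (hAH s), hinv s⟩
  have hH : H ≤ stabSet G ν U := by
    refine sup_le ((Subgroup.closure_le _).mpr ?_)
      ((Subgroup.closure_le _).mpr (range_subset_iff.mpr hA'))
    rintro _ ⟨Y, hY, rfl⟩
    exact mautner hU (hA' (-P)) (h3 (Subgroup.mem_sup_left (D.an_ex_mem_grp hY)))
      (D.an_tendsto_conj P hY)
  exact h4 U hU fun h hh => (mem_stabSet.mp (hH hh)).2

end Pool.Agent.P.MP_d483fb_an.Z
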