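import Pool.Agent.P.MP_d483fb_an.Z.Path.Defs
import Pool.Agent.P.MP_d483fb_an.Z.Avg.Over

/-!
A homogeneous space with a discrete stabiliser is locally compact and every finite measure on it
is tight.
-/

open scoped Topology ENNReal
open MeasureTheory Filter Set

namespace Pool.Agent.P.MP_d483fb_an.Z

variable {G : Type} [Group G] [TopologicalSpace G] {l : Len G}
  {X : Type} [TopologicalSpace X] [MulAction G X] [ContinuousSMul G X]

theorem Base.locallyCompact [LocallyCompactSpace G] (B : Base l X) : LocallyCompactSpace X :=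
  IsOpenQuotientMap.locallyCompactSpace (f := fun g : G => g • B.o)
    ⟨B.trans, continuous_id.smul continuous_const, B.opn⟩

theorem Base.hasOuter [LocallyCompactSpace G] [T2Space X] [SecondCountableTopology X]
    (B : Base l X) : HasOuterApproxClosed X := by
  have := B.locallyCompact
  infer_instance

theorem Base.tight [T2Space X] [MeasurableSpace X] [BorelSpace X] (B : Base l X) (μ : Measure X)
    [IsFiniteMeasure μ] : IsTightMeasureSet {μ} := by
  rw [isTightMeasureSet_iff_exists_isCompact_measure_compl_le]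
  intro ε hε
  let K : ℕ → Set X := fun n => (fun g : G => g • B.o) '' {g | l.len g ≤ n}
  have hK : ∀ n, IsCompact (K n) := fun n => (l.cpt n).image (continuous_id.smul continuous_const)
  have hanti : Antitone fun n => (K n)ᶜ := fun m n h =>
    compl_subset_compl.2 (image_mono fun g hg => le_trans hg h)
  have h := tendsto_measure_iInter_atTop (μ := μ)
    (fun n => (hK n).measurableSet.compl.nullMeasurableSet) hanti ⟨0, measure_ne_top _ _⟩
  have he : ⋂ n, (K n)ᶜ = ∅ := by
    rw [← compl_iUnion, compl_empty_iff, eq_univ_iff_forall]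
    intro x
    obtain ⟨g, hg⟩ := B.trans x
    exact mem_iUnion.2 ⟨l.len g, g, le_refl (l.len g), hg⟩
  rw [he, measure_empty] at h
  obtain ⟨n, hn⟩ := (h.eventually (ge_mem_nhds hε)).exists
  exact ⟨K n, hK n, fun ν hν => by rw [mem_singleton_iff.1 hν]; exact hn⟩

theorem Base.isExt [T2Space X] [MeasurableSpace X] [BorelSpace X] (B : Base l X) (μ : Measure X)
    [IsFiniteMeasure μ] {Z : Type} [TopologicalSpace Z] [MeasurableSpace Z] [MulAction G Z]
    {π : Z → X} (hπ : Continuous π) (heq : ∀ (g : G) z, π (g • z) = g • π z)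
    (hpr : ∀ K : Set X, IsCompact K → IsCompact (π ⁻¹' K)) : IsExt G π μ :=
  ⟨hπ, heq, hpr, B.tight μ⟩

omit [ContinuousSMul G X] in
theorem SubCoc.of_len {Z : Type} [TopologicalSpace Z] [MeasurableSpace Z] [MulAction G Z]
    {F : G → Z → ℝ} (hF : Continuous fun p : G × Z => F p.1 p.2)
    (hsub : ∀ g h z, F (g * h) z ≤ F g (h • z) + F h z)
    {CF : ℝ} (hbd : ∀ g z, |F g z| ≤ CF * (l.len g + 1)) : SubCoc F :=
  ⟨fun g => hF.comp (Continuous.prodMk_right g), hsub, fun g => ⟨_, hbd g⟩⟩

end Pool.Agent.P.MP_d483fb_an.Z
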