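import Mathlib

/-!
Probability measures on a proper extension that project to a given invariant measure:
compactness, common fixed points of commuting elements and extreme points.
-/

open scoped Topology NNReal ENNReal BoundedContinuousFunction
open MeasureTheory Filter Set

noncomputable section

namespace Pool.Agent.P.MP_d483fb_an.Z

section Cvx

variable {Z : Type} [TopologicalSpace Z] [MeasurableSpace Z] [BorelSpace Z]

/-- A set of probability measures that is closed under convex combinations. -/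
def Cvx (Q : Set (ProbabilityMeasure Z)) : Prop :=
  ∀ ν ∈ Q, ∀ ν' ∈ Q, ∀ s t : ℝ≥0, s + t = 1 → ∀ ρ : ProbabilityMeasure Z,
    (ρ : Measure Z) = s • (ν : Measure Z) + t • (ν' : Measure Z) → ρ ∈ Q

omit [TopologicalSpace Z] [BorelSpace Z] in
theorem Cvx.inter {Q Q' : Set (ProbabilityMeasure Z)} (h : Cvx Q) (h' : Cvx Q') : Cvx (Q ∩ Q') :=
  fun ν hν ν' hν' s t hst ρ hρ =>
    ⟨h ν hν.1 ν' hν'.1 s t hst ρ hρ, h' ν hν.2 ν' hν'.2 s t hst ρ hρ⟩

/-- A probability measure as a functional on bounded continuous functions. -/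
def emb (ν : ProbabilityMeasure Z) : (Z →ᵇ ℝ) → ℝ := fun f => ∫ z, f z ∂(ν : Measure Z)

theorem continuous_emb : Continuous (emb (Z := Z)) :=
  continuous_pi fun f => ProbabilityMeasure.continuous_integral_boundedContinuousFunction f

theorem emb_injective [HasOuterApproxClosed Z] : Function.Injective (emb (Z := Z)) := by
  intro ν ν' h
  exact ProbabilityMeasure.toMeasure_injective
    (ext_of_forall_integral_eq_of_IsFiniteMeasure fun f => congrFun h f)

theorem emb_mix {ν ν' ρ : ProbabilityMeasure Z} {s t : ℝ≥0}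
    (hρ : (ρ : Measure Z) = s • (ν : Measure Z) + t • (ν' : Measure Z)) :
    emb ρ = (s : ℝ) • emb ν + (t : ℝ) • emb ν' := by
  funext f
  simp only [emb, Pi.add_apply, Pi.smul_apply, smul_eq_mul]
  rw [hρ, integral_add_measure ((f.integrable _).smul_measure_nnreal)
    ((f.integrable _).smul_measure_nnreal), integral_smul_nnreal_measure,
    integral_smul_nnreal_measure]
  rfl

/-- A convex combination of two probability measures. -/
def mix (ν ν' : ProbabilityMeasure Z) (s t : ℝ≥0) (h : s + t = 1) : ProbabilityMeasure Z :=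
  ⟨s • (ν : Measure Z) + t • (ν' : Measure Z), ⟨by
    simp only [Measure.add_apply, Measure.smul_apply, measure_univ]
    rw [ENNReal.smul_def, ENNReal.smul_def, smul_eq_mul, smul_eq_mul, mul_one, mul_one,
      ← ENNReal.coe_add, h, ENNReal.coe_one]⟩⟩

theorem Cvx.convex {Q : Set (ProbabilityMeasure Z)} (h : Cvx Q) : Convex ℝ (emb '' Q) := by
  rintro _ ⟨ν, hν, rfl⟩ _ ⟨ν', hν', rfl⟩ s t hs ht hst
  lift s to ℝ≥0 using hs
  lift t to ℝ≥0 using ht
  have hst' : s + t = 1 := by exact_mod_cast hst
  exact ⟨mix ν ν' s t hst', h ν hν ν' hν' s t hst' _ rfl, emb_mix rfl⟩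

/-- A continuous map that preserves a compact convex set of measures fixes one of them. -/
theorem exists_fixed [HasOuterApproxClosed Z] {Q : Set (ProbabilityMeasure Z)} (hc : IsCompact Q)
    (hv : Cvx Q) (hne : Q.Nonempty) {T : Z → Z} (hT : Continuous T)
    (hQ : ∀ ν ∈ Q, ν.map hT.measurable.aemeasurable ∈ Q) :
    ∃ ν ∈ Q, MeasurePreserving T (ν : Measure Z) ν := by
  obtain ⟨ν₀, hν₀⟩ := hne
  let S : ProbabilityMeasure Z → ProbabilityMeasure Z := fun ν => ν.map hT.measurable.aemeasurable
  have hS : ∀ i, S^[i] ν₀ ∈ Q := by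
    intro i
    induction i with
    | zero => exact hν₀
    | succ i ih => rw [Function.iterate_succ_apply']; exact hQ _ ih
  let x : ℕ → (Z →ᵇ ℝ) → ℝ := fun N =>
    ∑ i ∈ Finset.range (N + 1), ((N + 1 : ℝ)⁻¹) • emb (S^[i] ν₀)
  have hx : ∀ N, x N ∈ emb '' Q := by
    intro N
    refine hv.convex.sum_mem (fun i _ => by positivity) ?_ fun i _ => mem_image_of_mem _ (hS i)
    rw [Finset.sum_const, Finset.card_range, nsmul_eq_mul]
    push_cast
    exact mul_inv_cancel₀ (by positivity)
  obtain ⟨_, ⟨ν, hν, rfl⟩, hcl⟩ := (hc.image continuous_emb).exists_mapClusterPt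
    (f := atTop) (u := x) (le_principal_iff.2 (mem_map.2 (Eventually.of_forall hx)))
  refine ⟨ν, hν, hT.measurable, ?_⟩
  refine ext_of_forall_integral_eq_of_IsFiniteMeasure fun f => ?_
  let g : Z →ᵇ ℝ := f.compContinuous ⟨T, hT⟩
  have hg : ∀ ρ : ProbabilityMeasure Z, emb (S ρ) f = emb ρ g := by
    intro ρ
    simp only [emb, S, ProbabilityMeasure.toMeasure_map]
    rw [integral_map hT.measurable.aemeasurable f.continuous.aestronglyMeasurable]
    rfl
  have hb : ∀ ρ : ProbabilityMeasure Z, |emb ρ f| ≤ ‖f‖ := by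
    intro ρ
    have := norm_integral_le_of_norm_le_const (μ := (ρ : Measure Z)) (f := fun z => f z)
      (Eventually.of_forall fun z => f.norm_coe_le_norm z)
    simpa [emb] using this
  let φ : ((Z →ᵇ ℝ) → ℝ) → ℝ := fun y => y g - y f
  have hφ : Continuous φ := (continuous_apply g).sub (continuous_apply f)
  have hval : ∀ N, φ (x N) = (N + 1 : ℝ)⁻¹ * (emb (S^[N + 1] ν₀) f - emb (S^[0] ν₀) f) := by
    intro N
    rw [← Finset.sum_range_sub (fun i => emb (S^[i] ν₀) f) (N + 1), Finset.mul_sum]
    simp only [φ, x, Finset.sum_apply, Pi.smul_apply, smul_eq_mul, ← Finset.sum_sub_distrib]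
    refine Finset.sum_congr rfl fun i _ => ?_
    rw [Function.iterate_succ_apply', hg, mul_sub]
  have hlim : Tendsto (φ ∘ x) atTop (𝓝 0) := by
    have h1 : Tendsto (fun N : ℕ => (N + 1 : ℝ)⁻¹ * (2 * ‖f‖)) atTop (𝓝 0) := by
      have := (tendsto_one_div_add_atTop_nhds_zero_nat (𝕜 := ℝ)).mul_const (2 * ‖f‖)
      simpa using this
    refine squeeze_zero_norm (fun N => ?_) h1
    rw [Function.comp_apply, hval, Real.norm_eq_abs, abs_mul, abs_of_nonneg (by positivity)]
    refine mul_le_mul_of_nonneg_left ?_ (by positivity)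
    refine (abs_sub _ _).trans ?_
    linarith [hb (S^[N + 1] ν₀), hb (S^[0] ν₀)]
  have h0 : φ (emb ν) = 0 := by
    have h1 : MapClusterPt (φ (emb ν)) atTop (φ ∘ x) := hcl.continuousAt_comp hφ.continuousAt
    exact eq_of_nhds_neBot (h1.clusterPt.mono hlim)
  have h2 : emb (S ν) f = emb ν f := by rw [hg]; exact sub_eq_zero.1 h0
  simpa [emb, S] using h2

theorem isClosed_fixed [HasOuterApproxClosed Z] {T : Z → Z} (hT : Continuous T) :
    IsClosed {ν : ProbabilityMeasure Z | MeasurePreserving T (ν : Measure Z) ν} := by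
  have : {ν : ProbabilityMeasure Z | MeasurePreserving T (ν : Measure Z) ν} =
      {ν | ν.map hT.measurable.aemeasurable = ν} := by
    ext ν
    refine ⟨fun h => Subtype.ext h.map_eq, fun h => ⟨hT.measurable, ?_⟩⟩
    exact congrArg (fun ρ : ProbabilityMeasure Z => (ρ : Measure Z)) h
  rw [this]
  exact isClosed_eq (ProbabilityMeasure.continuous_map hT) continuous_id

omit [TopologicalSpace Z] [BorelSpace Z] in
theorem cvx_fixed {T : Z → Z} :
    Cvx {ν : ProbabilityMeasure Z | MeasurePreserving T (ν : Measure Z) ν} := by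
  intro ν hν ν' hν' s t _ ρ hρ
  refine ⟨hν.measurable, ?_⟩
  rw [hρ, Measure.map_add _ _ hν.measurable, Measure.map_smul, Measure.map_smul, hν.map_eq,
    hν'.map_eq]

/-- The theorem of Markov and Kakutani for commuting continuous maps. -/
theorem exists_fixed_all [HasOuterApproxClosed Z] {Q : Set (ProbabilityMeasure Z)}
    (hc : IsCompact Q) (hv : Cvx Q) (hne : Q.Nonempty) {I : Type} {T : I → Z → Z}
    (hT : ∀ i, Continuous (T i)) (hcom : ∀ i j z, T i (T j z) = T j (T i z))
    (hQ : ∀ i, ∀ ν ∈ Q, ν.map (hT i).measurable.aemeasurable ∈ Q) :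
    ∃ ν ∈ Q, ∀ i, MeasurePreserving (T i) (ν : Measure Z) ν := by
  classical
  let W : I → Set (ProbabilityMeasure Z) := fun i => {ν | MeasurePreserving (T i) (ν : Measure Z) ν}
  have hfin : ∀ s : Finset I, (Q ∩ ⋂ i ∈ s, W i).Nonempty := by
    intro s
    induction s using Finset.induction_on with
    | empty => simpa using hne
    | insert j s _ ih =>
      have hcl : IsClosed (⋂ i ∈ s, W i) := isClosed_biInter fun i _ => isClosed_fixed (hT i)
      have hcv : Cvx (⋂ i ∈ s, W i) := by
        intro ν hν ν' hν' a b hab ρ hρ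
        simp only [mem_iInter] at hν hν' ⊢
        exact fun i hi => cvx_fixed ν (hν i hi) ν' (hν' i hi) a b hab ρ hρ
      obtain ⟨ν, hν, hj⟩ := exists_fixed (hc.inter_right hcl) (hv.inter hcv) ih (hT j) (by
        rintro ν ⟨h1, h2⟩
        refine ⟨hQ j ν h1, ?_⟩
        simp only [mem_iInter] at h2 ⊢
        intro i hi
        refine ⟨(hT i).measurable, ?_⟩
        simp only [ProbabilityMeasure.toMeasure_map]
        rw [Measure.map_map (hT i).measurable (hT j).measurable]
        have : T i ∘ T j = T j ∘ T i := funext (hcom i j)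
        rw [this, ← Measure.map_map (hT j).measurable (hT i).measurable, (h2 i hi).map_eq])
      refine ⟨ν, hν.1, ?_⟩
      rw [Finset.set_biInter_insert]
      exact ⟨hj, hν.2⟩
  obtain ⟨ν, hν, h⟩ := hc.inter_iInter_nonempty W (fun i => isClosed_fixed (hT i)) hfin
  exact ⟨ν, hν, fun i => mem_iInter.1 h i⟩

/-- A nonempty compact set of probability measures has an extreme point. -/
theorem exists_extreme [HasOuterApproxClosed Z] {Q : Set (ProbabilityMeasure Z)}
    (hc : IsCompact Q) (hne : Q.Nonempty) :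
    ∃ ρ ∈ Q, ∀ ν ∈ Q, ∀ ν' ∈ Q, ∀ s t : ℝ≥0, 0 < s → 0 < t → s + t = 1 →
      (ρ : Measure Z) = s • (ν : Measure Z) + t • (ν' : Measure Z) → ν = ρ := by
  obtain ⟨_, ⟨ρ, hρ, rfl⟩, h⟩ := (hc.image continuous_emb).extremePoints_nonempty (hne.image _)
  refine ⟨ρ, hρ, fun ν hν ν' hν' s t hs ht hst he => emb_injective ?_⟩
  refine h (mem_image_of_mem _ hν) (mem_image_of_mem _ hν') ⟨s, t, hs, ht, ?_, (emb_mix he).symm⟩
  exact_mod_cast hst

end Cvx

section Defs

variable {G Z X : Type} [Group G] [MeasurableSpace Z] [MulAction G Z]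

/-- The stabiliser of a measure. -/
def Stab (G : Type) [Group G] [MulAction G Z] [MeasurableConstSMul G Z] (ν : Measure Z) :
    Subgroup G where
  carrier := {g | MeasurePreserving (fun z : Z => g • z) ν ν}
  one_mem' := by
    simp only [mem_ofPred_eq, one_smul]
    exact MeasurePreserving.id ν
  mul_mem' := by
    intro g h hg hh
    have := hg.comp hh
    simpa [Function.comp_def, mul_smul] using this
  inv_mem' := by
    intro g hg
    refine ⟨measurable_const_smul g⁻¹, ?_⟩
    conv_lhs => rw [← hg.map_eq]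
    rw [Measure.map_map (measurable_const_smul g⁻¹) (measurable_const_smul g)]
    simp [Function.comp_def]

theorem mem_stab_iff [MeasurableConstSMul G Z] {ν : Measure Z} {g : G} :
    g ∈ Stab G ν ↔ MeasurePreserving (fun z : Z => g • z) ν ν := Iff.rfl

/-- The cocycle `F` grows at least at rate `e` along the powers of `g`. -/
def Pos (F : G → Z → ℝ) (e : ℝ) (g : G) (ν : Measure Z) : Prop :=
  ∀ j : ℕ, e * j ≤ ∫ z, F (g ^ j) z ∂ν

/-- Every almost `H`-invariant set is null or conull. -/
def ErgFor (H : Subgroup G) (ν : Measure Z) : Prop :=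
  ∀ U : Set Z, MeasurableSet U → (∀ h ∈ H, (fun z => h • z) ⁻¹' U =ᵐ[ν] U) → ν U = 0 ∨ ν Uᶜ = 0

/-- A continuous subadditive cocycle that is bounded for every group element. -/
structure SubCoc [TopologicalSpace Z] (F : G → Z → ℝ) : Prop where
  cont : ∀ g, Continuous (F g)
  sub : ∀ g h z, F (g * h) z ≤ F g (h • z) + F h z
  bd : ∀ g, ∃ C, ∀ z, |F g z| ≤ C

/-- A proper equivariant map onto a space with a tight measure. -/
structure IsExt (G : Type) [Group G] [MulAction G Z] [TopologicalSpace Z] [TopologicalSpace X]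
    [MeasurableSpace X] [MulAction G X] (π : Z → X) (μ : Measure X) : Prop where
  cont : Continuous π
  eqv : ∀ (g : G) z, π (g • z) = g • π z
  prop : ∀ K : Set X, IsCompact K → IsCompact (π ⁻¹' K)
  tight : IsTightMeasureSet {μ}

end Defs

end Pool.Agent.P.MP_d483fb_an.Z
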