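import Mathlib

/-! The trace of a commutator `[A, A*]` on a subspace invariant under `A` is nonnegative. -/

open scoped InnerProductSpace RealInnerProductSpace

noncomputable section

namespace Pool.Agent.P.MP_d483fb_an.Z.Avg

theorem trace_nonneg_inner {V : Type} [NormedAddCommGroup V] [InnerProductSpace ℝ V]
    [FiniteDimensional ℝ V] (q : Submodule ℝ V) (A B C : V →ₗ[ℝ] V)
    (hAB : ∀ x y, ⟪A x, y⟫ = ⟪x, B y⟫) (hA : ∀ x ∈ q, A x ∈ q)
    (hC : ∀ x, C x = A (B x) - B (A x)) (hq : ∀ x ∈ q, C x ∈ q) :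
    0 ≤ LinearMap.trace ℝ q (C.restrict hq) := by
  classical
  set b := stdOrthonormalBasis ℝ q
  rw [LinearMap.trace_eq_sum_inner _ b]
  have h1 : ∀ i, ⟪b i, (C.restrict hq) (b i)⟫ = ‖B (b i)‖ ^ 2 - ‖A (b i)‖ ^ 2 := by
    intro i
    rw [Submodule.coe_inner, LinearMap.coe_restrict_apply, hC, inner_sub_right, ← hAB,
      real_inner_comm, hAB, real_inner_self_eq_norm_sq, real_inner_self_eq_norm_sq]
  have h2 : ∀ i, ‖A (b i)‖ ^ 2 = ∑ j, ⟪(b i : V), B (b j)⟫ ^ 2 := by
    intro i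
    have := b.sum_sq_inner_right (⟨A (b i), hA _ (b i).2⟩ : q)
    rw [Submodule.coe_norm] at this
    rw [← this]
    refine Finset.sum_congr rfl fun j _ => ?_
    rw [Submodule.coe_inner, real_inner_comm, hAB]
  have h3 : ∀ j, ∑ i, ⟪(b i : V), B (b j)⟫ ^ 2 ≤ ‖B (b j)‖ ^ 2 := by
    intro j
    have ho : Orthonormal ℝ fun i => (b i : V) :=
      b.orthonormal.comp_linearIsometry q.subtypeₗᵢ
    have := ho.sum_inner_products_le (s := Finset.univ) (B (b j))
    simpa only [Real.norm_eq_abs, sq_abs] using this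
  simp only [h1, h2, Finset.sum_sub_distrib, sub_nonneg]
  rw [Finset.sum_comm]
  exact Finset.sum_le_sum fun j _ => h3 j

theorem trace_nonneg_form {V : Type} [AddCommGroup V] [Module ℝ V] [FiniteDimensional ℝ V]
    (f : V → V → ℝ) (hs : ∀ x y, f x y = f y x) (ha : ∀ x y z, f (x + y) z = f x z + f y z)
    (hm : ∀ (c : ℝ) x y, f (c • x) y = c * f x y) (h0 : ∀ x, 0 ≤ f x x)
    (h1 : ∀ x, f x x = 0 → x = 0) (q : Submodule ℝ V) (A B C : V →ₗ[ℝ] V)
    (hAB : ∀ x y, f (A x) y = f x (B y)) (hA : ∀ x ∈ q, A x ∈ q)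
    (hC : ∀ x, C x = A (B x) - B (A x)) (hq : ∀ x ∈ q, C x ∈ q) :
    0 ≤ LinearMap.trace ℝ q (C.restrict hq) := by
  let c : InnerProductSpace.Core ℝ V :=
    { inner := f
      conj_inner_symm := fun x y => by simpa using hs y x
      re_inner_nonneg := fun x => by simpa using h0 x
      add_left := ha
      smul_left := fun x y r => by simpa using hm r x y
      definite := h1 }
  let : NormedAddCommGroup V := c.toNormedAddCommGroup
  let : InnerProductSpace ℝ V := InnerProductSpace.ofCore c.toCore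
  exact trace_nonneg_inner q A B C hAB hA hC hq

/-- The trace of a combination of commuting projections preserving a subspace. -/
theorem trace_restrict_proj {V : Type} [AddCommGroup V] [Module ℝ V] [FiniteDimensional ℝ V]
    (q w : Submodule ℝ V) (P : V →ₗ[ℝ] V) (hq : ∀ x ∈ q, P x ∈ q) (hw : ∀ x ∈ q, P x ∈ w)
    (hid : ∀ x ∈ w, P x = x) :
    LinearMap.trace ℝ q (P.restrict hq) = (Module.finrank ℝ ↥(w ⊓ q) : ℝ) := by
  have hp : LinearMap.IsProj (w.comap q.subtype) (P.restrict hq) :=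
    { map_mem := fun x => hw _ x.2
      map_id := fun x hx => Subtype.ext (hid _ hx) }
  rw [hp.trace]
  congr 1
  rw [← Submodule.finrank_map_subtype_eq, Submodule.map_comap_subtype, inf_comm]

end Pool.Agent.P.MP_d483fb_an.Z.Avg
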