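import Pool.Agent.P.MP_d483fb_an.Z.Lie.Mx2
import Pool.Agent.P.MP_d483fb_an.Z.Avg.TraceA

/-! The weight sum of a subalgebra containing the Cartan subspace. -/

open scoped Matrix InnerProductSpace RealInnerProductSpace
open Set Module

noncomputable section

namespace Pool.Agent.P.MP_d483fb_an.Z.Avg

variable {G : Type} [Group G] [TopologicalSpace G] {n k : ℕ} (D : Std G n k)

/-- The adjoint action of a matrix. -/
def adL (E : Mat n) : Mat n →ₗ[ℝ] Mat n := LinearMap.mulLeft ℝ E - LinearMap.mulRight ℝ E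

theorem adL_apply (E X : Mat n) : adL E X = ⁅E, X⁆ := by
  simp [adL, Ring.lie_def]

theorem br_neg (X Y : Mat n) : ⁅X, Y⁆ = -⁅Y, X⁆ := by
  simp [Ring.lie_def]

theorem jac (X Y Z : Mat n) : ⁅⁅X, Y⁆, Z⁆ = ⁅X, ⁅Y, Z⁆⁆ - ⁅Y, ⁅X, Z⁆⁆ := by
  simp only [Ring.lie_def]
  noncomm_ring

theorem br_add_left (X Y Z : Mat n) : ⁅X + Y, Z⁆ = ⁅X, Z⁆ + ⁅Y, Z⁆ := by
  simp only [Ring.lie_def]
  noncomm_ring

theorem br_smul_left (c : ℝ) (X Y : Mat n) : ⁅c • X, Y⁆ = c • ⁅X, Y⁆ := by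
  simp only [Ring.lie_def, smul_mul_assoc, mul_smul_comm, smul_sub]

theorem br_dg_apply (s : Euc k) (X : Mat n) (i j : Fin n) :
    ⁅D.dg s, X⁆ i j = ⟪D.lam i - D.lam j, s⟫ * X i j := by
  rw [Ring.lie_def, D.dg_apply, Matrix.sub_apply, Matrix.diagonal_mul, Matrix.mul_diagonal,
    inner_sub_left]
  ring

theorem prS_mem {q : Submodule ℝ (Mat n)} (hq : ∀ s, ∀ X ∈ q, ⁅D.dg s, X⁆ ∈ q)
    (S : Set (Euc k)) {X : Mat n} (hX : X ∈ q) : D.prS S X ∈ q := by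
  classical
  have := mask_mem q (fun s i j => ⟪D.lam i - D.lam j, s⟫) (fun s Y hY => by
      have := hq s Y hY
      convert this using 1
      ext i j
      rw [br_dg_apply, Matrix.of_apply]) {p | D.lam p.1 - D.lam p.2 ∈ S}
    (fun p hp p' h => by
      have : D.lam p.1 - D.lam p.2 = D.lam p'.1 - D.lam p'.2 := ext_inner_right ℝ h
      rwa [mem_ofPred_eq, ← this]) hX
  convert this using 1
  ext i j
  rw [D.prS_apply, Matrix.of_apply]
  simp only [mem_ofPred_eq]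

theorem prS_wt (S : Set (Euc k)) (X : Mat n) : D.prS S X ∈ D.wtS S := by
  intro i j h
  rw [D.prS_apply] at h
  by_contra h'
  exact h (if_neg h')

theorem prS_of_mem {S : Set (Euc k)} {X : Mat n} (h : X ∈ D.wtS S) : D.prS S X = X := by
  ext i j
  rw [D.prS_apply]
  split_ifs with h'
  · rfl
  · by_contra h2
    exact h' (h i j (Ne.symm h2))

theorem prS_add_compl (S : Set (Euc k)) (X : Mat n) : D.prS S X + D.prS Sᶜ X = X := by
  ext i j
  rw [Matrix.add_apply, D.prS_apply, D.prS_apply]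
  by_cases h : D.lam i - D.lam j ∈ S <;> simp [h]

theorem pr_eq_zero {S : Set (Euc k)} {X : Mat n} (h : X ∈ D.wtS S) {γ : Euc k} (hγ : γ ∉ S) :
    D.pr γ X = 0 := by
  ext i j
  rw [Std.pr, D.prS_apply]
  split_ifs with h'
  · by_contra h2
    exact hγ (h' ▸ h i j h2)
  · rfl

theorem mem_wts (i j : Fin n) : D.lam i - D.lam j ∈ D.wts := by
  classical
  exact Finset.mem_image.2 ⟨(i, j), Finset.mem_univ _, rfl⟩

theorem neg_mem_wts {γ : Euc k} (h : γ ∈ D.wts) : -γ ∈ D.wts := by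
  classical
  obtain ⟨p, -, rfl⟩ := Finset.mem_image.1 h
  rw [neg_sub]
  exact mem_wts D _ _

theorem sum_smul_pr (f : Euc k → ℝ) (X : Mat n) (i j : Fin n) :
    (∑ γ ∈ D.wts, f γ • D.pr γ X) i j = f (D.lam i - D.lam j) * X i j := by
  rw [Matrix.sum_apply, Finset.sum_eq_single (D.lam i - D.lam j)]
  · rw [Matrix.smul_apply, Std.pr, D.prS_apply, if_pos (mem_singleton _), smul_eq_mul]
  · intro γ _ hγ
    rw [Matrix.smul_apply, Std.pr, D.prS_apply, if_neg (fun h => hγ h.symm), smul_zero]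
  · exact fun h => absurd (mem_wts D i j) h

theorem sum_pr (X : Mat n) : ∑ γ ∈ D.wts, D.pr γ X = X := by
  ext i j
  simpa using sum_smul_pr D (fun _ => 1) X i j

theorem br_dg (s : Euc k) (X : Mat n) : ⁅D.dg s, X⁆ = ∑ γ ∈ D.wts, ⟪γ, s⟫ • D.pr γ X := by
  ext i j
  rw [br_dg_apply, sum_smul_pr D (fun γ => ⟪γ, s⟫)]

theorem br_dg_of_mem {γ : Euc k} {X : Mat n} (h : X ∈ D.wtS {γ}) (s : Euc k) :
    ⁅D.dg s, X⁆ = ⟪γ, s⟫ • X := by
  ext i j
  rw [br_dg_apply, Matrix.smul_apply, smul_eq_mul]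
  by_cases h0 : X i j = 0
  · rw [h0, mul_zero, mul_zero]
  · rw [show D.lam i - D.lam j = γ from h i j h0]

theorem tr_wt {S T : Set (Euc k)} {X : Mat n} (h : X ∈ D.wtS S) (hS : ∀ β ∈ S, -β ∈ T) :
    Xᵀ ∈ D.wtS T := by
  intro i j hij
  have := hS _ (h j i hij)
  rwa [neg_sub] at this

theorem br_wt {S T R : Set (Euc k)} {X Y : Mat n} (hX : X ∈ D.wtS S) (hY : Y ∈ D.wtS T)
    (h : ∀ β ∈ S, ∀ γ ∈ T, β + γ ∈ R) : ⁅X, Y⁆ ∈ D.wtS R := by
  rw [Ring.lie_def]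
  exact sub_mem (D.wtS_mul hX hY h)
    (D.wtS_mul hY hX fun β hβ γ hγ => add_comm γ β ▸ h γ hγ β hβ)

theorem ip_dg (s t : Euc k) : ip (D.dg s) (D.dg t) = ⟪s, t⟫ := by
  rw [← D.frame, ip]
  refine Finset.sum_congr rfl fun i _ => ?_
  rw [Finset.sum_eq_single i]
  · simp [D.dg_apply]
  · intro j _ hj
    rw [D.dg_apply, Matrix.diagonal_apply_ne _ hj.symm, zero_mul]
  · simp

theorem ip_prS (S : Set (Euc k)) (X : Mat n) :
    ip X (D.prS S X) = ip (D.prS S X) (D.prS S X) := by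
  refine Finset.sum_congr rfl fun i _ => Finset.sum_congr rfl fun j _ => ?_
  rw [D.prS_apply]
  split_ifs <;> simp

theorem mem_roots {β : Euc k} : β ∈ D.roots ↔ β ≠ 0 ∧ D.gr β ≠ ⊥ := by
  classical
  refine ⟨fun h => (Finset.mem_filter.1 h).2, fun h => Finset.mem_filter.2 ⟨?_, h⟩⟩
  obtain ⟨X, hX, h0⟩ := (Submodule.ne_bot_iff _).1 h.2
  obtain ⟨i, j, hij⟩ : ∃ i j, X i j ≠ 0 := by
    by_contra hc
    push Not at hc
    exact h0 (Matrix.ext hc)
  rw [← show D.lam i - D.lam j = β from hX.2 i j hij]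
  exact mem_wts D i j

/-- A subspace invariant under the Cartan subspace lies in `q` if its root components do. -/
theorem grS_le (hg : IsSub D.g) {S : Set (Euc k)} {q : Submodule ℝ (Mat n)}
    (h : ∀ γ ∈ S, D.gr γ ≤ q) : D.grS S ≤ q := by
  intro X hX
  rw [← sum_pr D X]
  refine Submodule.sum_mem _ fun γ _ => ?_
  by_cases hγ : γ ∈ S
  · exact h γ hγ ⟨prS_mem D (fun s Y hY => hg _ (D.dg_mem s) _ hY) _ hX.1, prS_wt D _ _⟩
  · rw [pr_eq_zero D hX.2 hγ]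
    exact q.zero_mem

theorem gr_le_grS {S : Set (Euc k)} {γ : Euc k} (h : γ ∈ S) : D.gr γ ≤ D.grS S :=
  fun _ hX => ⟨hX.1, fun i j hij => (show D.lam i - D.lam j = γ from hX.2 i j hij) ▸ h⟩

section

variable (hg : IsSub D.g) (hT : ∀ X ∈ D.g, Xᵀ ∈ D.g)
include hT

theorem tr_gr {γ : Euc k} {X : Mat n} (h : X ∈ D.gr γ) : Xᵀ ∈ D.gr (-γ) :=
  ⟨hT _ h.1, tr_wt D h.2 fun β hβ => by rw [show β = γ from hβ]; rfl⟩

theorem finrank_gr_le (γ : Euc k) : finrank ℝ (D.gr γ) ≤ finrank ℝ (D.gr (-γ)) := by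
  let f : D.gr γ →ₗ[ℝ] D.gr (-γ) :=
    { toFun := fun X => ⟨X.1ᵀ, tr_gr D hT X.2⟩
      map_add' := fun X Y => Subtype.ext (Matrix.transpose_add _ _)
      map_smul' := fun c X => Subtype.ext (Matrix.transpose_smul _ _) }
  refine LinearMap.finrank_le_finrank_of_injective (f := f) fun X Y h => Subtype.ext ?_
  exact Matrix.transpose_injective (congrArg Subtype.val h)

theorem finrank_gr_neg (γ : Euc k) : finrank ℝ (D.gr (-γ)) = finrank ℝ (D.gr γ) := by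
  refine le_antisymm ?_ (finrank_gr_le D hT γ)
  have := finrank_gr_le D hT (-γ)
  rwa [neg_neg] at this

theorem neg_mem_roots {β : Euc k} (h : β ∈ D.roots) : -β ∈ D.roots := by
  rw [mem_roots] at h ⊢
  refine ⟨neg_ne_zero.2 h.1, fun h0 => h.2 ?_⟩
  have := finrank_gr_neg D hT β
  rw [h0, finrank_bot] at this
  exact Submodule.finrank_eq_zero.1 this.symm

include hg

theorem br_tr {l : Euc k} {E : Mat n} (hE : E ∈ D.gr l) : ⁅E, Eᵀ⁆ = ip E E • D.dg l := by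
  have hE' := tr_gr D hT hE
  have h0 : ⁅E, Eᵀ⁆ ∈ D.wtS {0} := br_wt D hE.2 hE'.2 fun β hβ γ hγ => by
    rw [show β = l from hβ, show γ = -l from hγ, add_neg_cancel]
    rfl
  obtain ⟨s, hs⟩ := D.max' _ (hg _ hE.1 _ hE'.1)
    (by rw [Matrix.IsSymm, tr_br, Matrix.transpose_transpose])
    fun i j hij => sub_eq_zero.1 (h0 i j hij)
  rw [← D.dg_apply] at hs
  rw [hs, ← map_smul]
  congr 1
  refine ext_inner_right ℝ fun t => ?_
  rw [← ip_dg D, ← hs, ip_br, br_neg, br_dg_of_mem D hE'.2, ip_neg_right, ip_smul_right, ip_tr,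
    real_inner_smul_left, inner_neg_left]
  ring

end

/-- The sum of the weights of `q`, with multiplicity. -/
def wsum (q : Submodule ℝ (Mat n)) : Euc k :=
  ∑ γ ∈ D.wts, (finrank ℝ ↥(D.gr γ ⊓ q) : ℝ) • γ

theorem inner_wsum (q : Submodule ℝ (Mat n)) (s : Euc k) :
    ⟪wsum D q, s⟫ = ∑ γ ∈ D.wts, (finrank ℝ ↥(D.gr γ ⊓ q) : ℝ) * ⟪γ, s⟫ := by
  simp only [wsum, sum_inner, real_inner_smul_left]

theorem trace_dg {q : Submodule ℝ (Mat n)} (hqg : q ≤ D.g)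
    (hq : ∀ s, ∀ X ∈ q, ⁅D.dg s, X⁆ ∈ q) (s : Euc k) (h : ∀ X ∈ q, adL (D.dg s) X ∈ q) :
    LinearMap.trace ℝ q ((adL (D.dg s)).restrict h) = ⟪wsum D q, s⟫ := by
  have hp : ∀ γ, ∀ X ∈ q, D.pr γ X ∈ q := fun γ X hX => prS_mem D hq _ hX
  have : (adL (D.dg s)).restrict h = ∑ γ ∈ D.wts, ⟪γ, s⟫ • (D.pr γ).restrict (hp γ) := by
    ext X : 2
    rw [LinearMap.coe_restrict_apply, adL_apply, br_dg, LinearMap.sum_apply,
      Submodule.coe_sum]
    rfl
  rw [this, map_sum, inner_wsum]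
  refine Finset.sum_congr rfl fun γ _ => ?_
  rw [map_smul, trace_restrict_proj q (D.gr γ) (D.pr γ) (hp γ)
    (fun X hX => ⟨hqg (hp γ X hX), prS_wt D _ _⟩) fun X hX => prS_of_mem D hX.2,
    smul_eq_mul, mul_comm]

variable (hg : IsSub D.g) (hT : ∀ X ∈ D.g, Xᵀ ∈ D.g) {q : Submodule ℝ (Mat n)}
include hg hT

/-- The trace inequality: a weight of `q` pairs nonnegatively with the weight sum of `q`. -/
theorem wsum_nonneg (hqg : q ≤ D.g) (hq : IsSub q) (ha : ∀ s, D.dg s ∈ q) {β : Euc k}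
    (hβ : D.gr β ⊓ q ≠ ⊥) : 0 ≤ ⟪β, wsum D q⟫ := by
  obtain ⟨E, hE, h0⟩ := (Submodule.ne_bot_iff _).1 hβ
  have hs : ∀ X ∈ q, adL (D.dg (ip E E • β)) X ∈ q := fun X hX => by
    rw [adL_apply]
    exact hq _ (ha _) _ hX
  have := trace_nonneg_form ip ip_comm ip_add_left ip_smul_left ip_self_nonneg
    (fun _ => ip_self_eq_zero.1) q (adL E) (adL Eᵀ) (adL (D.dg (ip E E • β)))
    (fun X Y => by rw [adL_apply, adL_apply, ip_br])
    (fun X hX => by rw [adL_apply]; exact hq _ hE.2 _ hX)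
    (fun X => by simp only [adL_apply]; rw [map_smul, ← br_tr D hg hT hE.1, jac]) hs
  rw [trace_dg D hqg (fun s X hX => hq _ (ha s) _ hX), real_inner_smul_right,
    real_inner_comm] at this
  exact nonneg_of_mul_nonneg_right this (ip_self_pos h0)

/-- If the weight sum does not see `H`, then `q` contains both horospherical algebras. -/
theorem np_neg_le {H : Euc k} (hH : D.np H ≤ q) (h0 : ⟪wsum D q, H⟫ ≤ 0) : D.np (-H) ≤ q := by
  set d : Euc k → ℝ := fun γ => (finrank ℝ ↥(D.gr γ ⊓ q) : ℝ) with hd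
  have hfull : ∀ γ, 0 < ⟪γ, H⟫ → d γ = finrank ℝ (D.gr γ) := fun γ hγ => by
    simp only [hd]
    rw [inf_eq_left.2 ((gr_le_grS D (S := {γ | 0 < ⟪γ, H⟫}) hγ).trans hH)]
  have hle : ∀ γ, d (-γ) ≤ finrank ℝ (D.gr γ) := fun γ => by
    simp only [hd]
    rw [← finrank_gr_neg D hT γ]
    exact_mod_cast Submodule.finrank_mono inf_le_left
  have h1 : ∑ γ ∈ D.wts, d (-γ) * ⟪γ, H⟫ = -⟪wsum D q, H⟫ := by
    rw [inner_wsum, ← Finset.sum_neg_distrib]
    refine Finset.sum_nbij' (fun γ => -γ) (fun γ => -γ) (fun γ => neg_mem_wts D)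
      (fun γ => neg_mem_wts D) (fun γ _ => neg_neg γ) (fun γ _ => neg_neg γ) fun γ _ => ?_
    rw [inner_neg_left, mul_neg, neg_neg]
  have hpos : ∀ γ ∈ D.wts, 0 ≤ (d γ - d (-γ)) * ⟪γ, H⟫ := fun γ _ => by
    rcases lt_trichotomy 0 ⟪γ, H⟫ with h | h | h
    · exact mul_nonneg (by rw [hfull γ h]; linarith [hle γ]) h.le
    · rw [← h, mul_zero]
    · have h' : 0 < ⟪-γ, H⟫ := by rw [inner_neg_left]; linarith
      have := hle (-γ)
      rw [neg_neg, ← hfull _ h'] at this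
      exact mul_nonneg_of_nonpos_of_nonpos (by linarith) h.le
  have hsum : ∑ γ ∈ D.wts, (d γ - d (-γ)) * ⟪γ, H⟫ = 0 := by
    refine le_antisymm ?_ (Finset.sum_nonneg hpos)
    simp only [sub_mul, Finset.sum_sub_distrib]
    rw [h1, ← inner_wsum]
    linarith
  rw [Finset.sum_eq_zero_iff_of_nonneg hpos] at hsum
  refine grS_le D hg fun γ hγ => ?_
  by_cases hb : D.gr γ = ⊥
  · rw [hb]
    exact bot_le
  have hγ' : ⟪γ, H⟫ < 0 := by
    rw [mem_ofPred_eq, inner_neg_right] at hγ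
    linarith
  have hr : γ ∈ D.wts := by
    classical
    refine (Finset.mem_filter.1 ((mem_roots D).2 ⟨?_, hb⟩)).1
    rintro rfl
    simp at hγ'
  have h2 := (mul_eq_zero.1 (hsum γ hr)).resolve_right hγ'.ne
  rw [hfull (-γ) (by rw [inner_neg_left]; linarith), finrank_gr_neg D hT, sub_eq_zero] at h2
  have h3 : D.gr γ ⊓ q = D.gr γ :=
    Submodule.eq_of_le_of_finrank_eq inf_le_left (Nat.cast_injective (R := ℝ) h2)
  exact inf_eq_left.1 h3

omit hg in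
/-- The weight sum vanishes if no root pairs negatively with it. -/
theorem wsum_eq_zero (h : ∀ β ∈ D.roots, 0 ≤ ⟪β, wsum D q⟫) : wsum D q = 0 := by
  have h0 : ∀ β ∈ D.roots, ⟪β, wsum D q⟫ = 0 := fun β hβ => by
    have := h _ (neg_mem_roots D hT hβ)
    rw [inner_neg_left] at this
    linarith [h β hβ]
  rw [← inner_self_eq_zero (𝕜 := ℝ), inner_wsum]
  refine Finset.sum_eq_zero fun γ _ => ?_
  by_cases hγ : γ ∈ D.roots
  · rw [h0 γ hγ, mul_zero]
  · rw [mem_roots, not_and_or, not_not, not_not] at hγ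
    rcases hγ with rfl | hγ
    · simp
    · rw [hγ, bot_inf_eq, finrank_bot]
      simp

end Pool.Agent.P.MP_d483fb_an.Z.Avg
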