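import Pool.Agent.P.MP_d483fb_an.Z.Avg.Gen
import Pool.Agent.P.MP_d483fb_an.Z.Lie.StdW
import Pool.Agent.P.MP_d483fb_an.Z.Lie.Closed

/-! The final dichotomy: a closed subgroup containing the Cartan subgroup and a horospherical
group, and meeting every class of roots that has too few exponents, is the whole group. -/

open scoped Matrix InnerProductSpace RealInnerProductSpace
open Set Module

noncomputable section

namespace Pool.Agent.P.MP_d483fb_an.Z.Avg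

open Z.Std

theorem finrank_sup_le_sum {α V : Type} [AddCommGroup V] [Module ℝ V] [FiniteDimensional ℝ V]
    (T : Finset α) (f : α → Submodule ℝ V) :
    finrank ℝ ↥(T.sup f) ≤ ∑ a ∈ T, finrank ℝ (f a) := by
  classical
  induction T using Finset.induction_on with
  | empty => simp
  | insert a T ha ih =>
    rw [Finset.sup_insert, Finset.sum_insert ha]
    exact (Submodule.finrank_add_le_finrank_add_finrank _ _).trans (Nat.add_le_add_left ih _)

theorem cls_eq_of_mem {k : ℕ} {β γ δ : Euc k} (h1 : δ ∈ cls β) (h2 : δ ∈ cls γ) :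
    cls β = cls γ := by
  have key : ∀ {β δ : Euc k}, δ ∈ cls β → cls δ = cls β := by
    rintro β _ ⟨c, hc, rfl⟩
    ext x
    constructor
    · rintro ⟨d, hd, rfl⟩
      exact ⟨d * c, mul_pos hd hc, smul_smul d c β⟩
    · rintro ⟨d, hd, rfl⟩
      exact ⟨d / c, div_pos hd hc, by rw [smul_smul, div_mul_cancel₀ _ hc.ne']⟩
  rw [← key h1, key h2]

variable {G : Type} [Group G] [TopologicalSpace G] [IsTopologicalGroup G] {n k : ℕ}
  (D : Std G n k)

/-- The codimension of a proper parabolic subgroup. -/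
theorem lt_finrank_neg {m : ℕ} (hv : D.ltV m) {r : Euc k} (hr : ∃ β ∈ D.roots, ⟪β, r⟫ < 0) :
    m < finrank ℝ (D.grS {γ | ⟪γ, r⟫ < 0}) := by
  obtain ⟨β, hβ, hr⟩ := hr
  obtain ⟨E, hE, h0⟩ := D.exists_ne_zero hβ
  obtain ⟨P, hP, -, hl⟩ := D.exists_normaliser (D.grS {γ | ⟪γ, r⟫ < 0}ᶜ)
  have hne : P ≠ ⊤ := by
    rintro rfl
    have h1 := ((hl E).1 (by rw [D.lie_top]; exact hE.1)).2 (D.dg r)
      (D.gr_le_grS (by simp) (D.dg_mem_gr r))
    rw [br_neg, D.br_dg hE, neg_mem_iff, Submodule.smul_mem_iff _ hr.ne] at h1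
    exact h0 (ip_self_eq_zero.1 (D.ip_wtS hE.2 h1.2 (by simpa using hr)))
  have hle : D.grS {γ | ⟪γ, r⟫ < 0}ᶜ ≤ D.lie P := fun X hX => (hl X).2
    ⟨hX.1, fun Y hY => D.br_grS hX hY fun a ha b hb => by
      simp only [mem_compl_iff, mem_ofPred_eq, not_lt, inner_add_left] at ha hb ⊢
      exact add_nonneg ha hb⟩
  have h1 := hv P hP hne
  have h2 := D.finrank_grS_union (disjoint_compl_right (a := {γ | ⟪γ, r⟫ < 0}))
  rw [union_compl_self, D.grS_univ] at h2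
  have h3 := Submodule.finrank_mono hle
  omega

open Classical in
theorem finrank_le_sum {ι : Type} [Fintype ι] (w : ι → Euc k) (d : ι → ℕ) {S : Set (Euc k)}
    (h0 : 0 ∉ S) (h : ∀ β ∈ D.roots, β ∈ S →
      finrank ℝ (D.u β) ≤ ∑ i with w i ∈ cls β, d i) : finrank ℝ (D.grS S) ≤ ∑ i, d i := by
  set T : Finset (Set (Euc k)) := (D.roots.filter (· ∈ S)).image cls
  have h1 : D.grS S ≤ T.sup D.grS := D.grS_le_of fun β hβ hr => by
    have hr' : β ∈ D.roots := hr.resolve_left fun h => h0 (h ▸ hβ)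
    exact (D.gr_le_grS (S := cls β) ⟨1, one_pos, (one_smul _ _).symm⟩).trans
      (Finset.le_sup (Finset.mem_image_of_mem _ (Finset.mem_filter.2 ⟨hr', hβ⟩)))
  refine (Submodule.finrank_mono h1).trans ((finrank_sup_le_sum T _).trans ?_)
  have h2 : ∀ C ∈ T, finrank ℝ (D.grS C) ≤ ∑ i with w i ∈ C, d i := fun C hC => by
    obtain ⟨β, hβ, rfl⟩ := Finset.mem_image.1 hC
    exact h β (Finset.mem_filter.1 hβ).1 (Finset.mem_filter.1 hβ).2
  refine (Finset.sum_le_sum h2).trans ?_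
  rw [← Finset.sum_biUnion]
  · exact Finset.sum_le_sum_of_subset (Finset.subset_univ _)
  · intro C hC C' hC' hne
    obtain ⟨β, -, rfl⟩ := Finset.mem_image.1 hC
    obtain ⟨γ, -, rfl⟩ := Finset.mem_image.1 hC'
    exact Finset.disjoint_left.2 fun i h1 h2 =>
      hne (cls_eq_of_mem (Finset.mem_filter.1 h1).2 (Finset.mem_filter.1 h2).2)

open Classical in
/-- The dichotomy for subalgebras, exponents `w i` with multiplicities `d i`. -/
theorem dich_alg {m : ℕ} (hv : D.ltV m) {ι : Type} [Fintype ι] (w : ι → Euc k) (d : ι → ℕ)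
    (hm : ∑ i, d i ≤ m) {q : Submodule ℝ (Mat n)} (hqg : q ≤ D.g) (hq : IsSub q)
    (ha : ∀ s, D.dg s ∈ q) {H : Euc k} (hH : D.Reg H) (hn : D.np H ≤ q)
    (hD : ∀ β ∈ D.roots, ∑ i with w i ∈ cls β, d i < finrank ℝ (D.u β) →
      ∃ c : ℝ, 0 < c ∧ ∃ X, X ≠ 0 ∧ X ∈ D.gr (c • β) ∧ X ∈ q) : D.g ≤ q := by
  rcases trace_trick D D.g_isSub (fun _ => D.tr_mem) hqg hq ha hH hn with h | ⟨r, hr, h⟩
  · exact h
  have h1 := lt_finrank_neg D hv hr
  have h2 := finrank_le_sum D w d (S := {γ | ⟪γ, r⟫ < 0}) (by simp)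
    fun β hβ hb => not_lt.1 fun hlt => h β hb (hD β hβ hlt)
  omega

variable [PreconnectedSpace G]

open Classical in
/-- The dichotomy for subgroups, exponents with multiplicities. -/
theorem dich_mult {m : ℕ} (hv : D.ltV m) {ι : Type} [Fintype ι] (w : ι → Euc k) (d : ι → ℕ)
    (hm : ∑ i, d i ≤ m) {Q : Subgroup G} (ha : ∀ s, D.dg s ∈ D.lie Q) {H : Euc k}
    (hH : D.Reg H) (hn : D.np H ≤ D.lie Q)
    (hD : ∀ β ∈ D.roots, ∑ i with w i ∈ cls β, d i < finrank ℝ (D.u β) →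
      ∃ c : ℝ, 0 < c ∧ ∃ X, X ≠ 0 ∧ X ∈ D.gr (c • β) ∧ X ∈ D.lie Q) : Q = ⊤ :=
  D.eq_top_of_le_lie (dich_alg D hv w d hm (D.lie_le Q) (D.lie_isSub Q) ha hH hn hD)

/-- The dichotomy for subgroups, exponents listed with repetition. -/
theorem dich {ι : Type} [Fintype ι] (hv : D.ltV (Fintype.card ι)) (w : ι → Euc k)
    {Q : Subgroup G} (ha : ∀ s, D.dg s ∈ D.lie Q) {H : Euc k} (hH : D.Reg H)
    (hn : D.np H ≤ D.lie Q)
    (hD : ∀ β ∈ D.roots, Nat.card {i // w i ∈ cls β} < finrank ℝ (D.u β) →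
      ∃ c : ℝ, 0 < c ∧ ∃ X, X ≠ 0 ∧ X ∈ D.gr (c • β) ∧ X ∈ D.lie Q) : Q = ⊤ := by
  classical
  refine dich_mult D hv w (fun _ => 1) (by simp) ha hH hn fun β hβ h => hD β hβ ?_
  rw [Nat.card_eq_fintype_card, Fintype.card_subtype]
  simpa using h

/-- The blocked case: every class of roots off the line of `θ` meets the Lie algebra of `Q`. -/
theorem blocked (hR : ∀ β ∈ D.roots, ∃ α ∈ D.roots, 0 < ⟪α, β⟫ ∧ ∀ c : ℝ, α ≠ c • β)
    {θ : Euc k} {Q : Subgroup G} (ha : ∀ s, D.dg s ∈ D.lie Q) {H : Euc k}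
    (hH : ∀ β ∈ D.roots, (∀ c : ℝ, β ≠ c • θ) → ⟪β, H⟫ ≠ 0) (hn : D.np H ≤ D.lie Q)
    (hD : ∀ β ∈ D.roots, (∀ c : ℝ, β ≠ c • θ) →
      ∃ c : ℝ, 0 < c ∧ ∃ X, X ≠ 0 ∧ X ∈ D.gr (c • β) ∧ X ∈ D.lie Q) : Q = ⊤ := by
  have hm : ∀ β, β ∉ (Submodule.span ℝ {θ}).toAddSubgroup → ∀ c : ℝ, β ≠ c • θ :=
    fun β h c hc => h (Submodule.mem_span_singleton.2 ⟨c, hc.symm⟩)
  refine D.eq_top_of_le_lie (blocked_alg D D.g_isSub (fun _ => D.tr_mem) (D.lie_le Q)
    (D.lie_isSub Q) ha (L := (Submodule.span ℝ {θ}).toAddSubgroup) (fun β hβ hb => ?_)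
    (fun β hβ hb => hH β hβ (hm β hb)) hn fun β hβ hb => hD β hβ (hm β hb))
  obtain ⟨α, hα, h1, h2⟩ := hR β hβ
  refine ⟨α, hα, fun h => ?_, h1.ne'⟩
  obtain ⟨c, rfl⟩ := Submodule.mem_span_singleton.1 hb
  obtain ⟨e, rfl⟩ := Submodule.mem_span_singleton.1 h
  have hc : c ≠ 0 := fun h0 => D.root_ne_zero hβ (by rw [h0, zero_smul])
  exact h2 (e / c) (by rw [smul_smul, div_mul_cancel₀ _ hc])

end Pool.Agent.P.MP_d483fb_an.Z.Avg
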