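import Pool.Agent.P.MP_d483fb_an.Z.Avg.AN
import Pool.Agent.P.MP_d483fb_an.Z.Lie.Par

/-!
From the invariance principle along coarse roots to an invariant measure.
-/

open scoped Topology InnerProductSpace RealInnerProductSpace
open MeasureTheory Filter Set TopologicalSpace

noncomputable section

namespace Pool.Agent.P.MP_d483fb_an.Z

/-- The invariance principle for `ν`, with at most `m` exponents `w i`: a root class that contains
fewer exponents than its dimension contains a one parameter group that preserves `ν`. -/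
def Std.InvP {G Z : Type} [Group G] [TopologicalSpace G] {n k : ℕ} (D : Std G n k)
    [MeasurableSpace Z] [MulAction G Z] (m : ℕ) (ν : Measure Z) : Prop :=
  ∃ (ι : Type) (_ : Fintype ι) (w : ι → Euc k), Fintype.card ι ≤ m ∧
    ∀ b ∈ D.roots, Nat.card {i // w i ∈ Std.cls b} < Module.finrank ℝ (D.u b) →
      ∃ c : ℝ, 0 < c ∧ ∃ Y ∈ D.gr (c • b), Y ≠ 0 ∧
        ∀ t : ℝ, MeasurePreserving (fun z : Z => D.ex (t • Y) • z) ν ν

variable {G Z X : Type} [Group G] [TopologicalSpace G] [IsTopologicalGroup G]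
  [FirstCountableTopology G] [PreconnectedSpace G] {n k : ℕ}
  [TopologicalSpace Z] [T2Space Z] [PseudoMetrizableSpace Z] [MeasurableSpace Z] [BorelSpace Z]
  [MulAction G Z] [ContinuousSMul G Z]
  [TopologicalSpace X] [T2Space X] [HasOuterApproxClosed X] [MeasurableSpace X] [BorelSpace X]
  [MulAction G X] [ContinuousConstSMul G X]
  {μ : Measure X} [IsProbabilityMeasure μ] [SMulInvariantMeasure G X μ] {π : Z → X}

/-- There is an invariant, `A`-ergodic probability measure over `μ`. -/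
theorem Std.exists_invariant (D : Std G n k) (hπ : IsExt G π μ)
    (h0 : ∃ ν : Measure Z, IsProbabilityMeasure ν ∧ ν.map π = μ)
    (herg : ∃ s, Ergodic (fun x : X => D.a s • x) μ) {m : ℕ} (hv : D.ltV m)
    (hD : ∀ ν : Measure Z, IsProbabilityMeasure ν → ν.map π = μ →
      (∀ s, MeasurePreserving (fun z : Z => D.a s • z) ν ν) → D.AErg ν → D.InvP m ν) :
    ∃ ν : Measure Z, IsProbabilityMeasure ν ∧ ν.map π = μ ∧
      (∀ g : G, MeasurePreserving (fun z : Z => g • z) ν ν) ∧ D.AErg ν := by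
  obtain ⟨P, hP⟩ := D.exists_reg
  obtain ⟨ν, h1, h2, hA, hN, hE⟩ := D.exists_AN hπ h0 herg P
  obtain ⟨ι, _, w, hc, hw⟩ := hD ν h1 h2 hA hE
  have htop : Stab G ν = ⊤ := by
    refine D.eq_top_of_le_lie (D.le_of_count w (fun H hH hne => hc.trans_lt (hv H hH hne))
      (D.lie_isSub _) hP (D.le_lie inf_le_left fun Y hY => hN (D.an_ex_mem_grp hY))
      fun β hβ _ => ?_)
    refine (lt_or_ge _ _).imp (fun h => ?_) id
    obtain ⟨c, hc, Y, hY, hY0, hinv⟩ := hw β hβ h
    exact ⟨_, ⟨c, hc, rfl⟩, Y, hY, D.mem_lie_of hY.1 hinv, hY0⟩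
  exact ⟨ν, h1, h2, fun g => mem_stab_iff.mp (htop ▸ Subgroup.mem_top g), hE⟩

end Pool.Agent.P.MP_d483fb_an.Z
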