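import Pool.Agent.P.MP_d483fb_an.Z.Avg.Trace

/-! Generation of the Lie algebra by root spaces, and the two cases of the final dichotomy at the
level of Lie algebras. -/

open scoped Matrix InnerProductSpace RealInnerProductSpace
open Set Module

noncomputable section

namespace Pool.Agent.P.MP_d483fb_an.Z.Avg

variable {G : Type} [Group G] [TopologicalSpace G] {n k : ℕ} (D : Std G n k)

/-- Elements with weights in the subgroup `L` commuting with all weight vectors off `L`. -/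
def zed (L : AddSubgroup (Euc k)) : Submodule ℝ (Mat n) where
  carrier := {X | X ∈ D.grS L ∧ ∀ E ∈ D.grS (L : Set (Euc k))ᶜ, ⁅E, X⁆ = 0}
  zero_mem' := ⟨zero_mem _, fun E _ => by simp [Ring.lie_def]⟩
  add_mem' := by
    intro X Y hX hY
    refine ⟨add_mem hX.1 hY.1, fun E hE => ?_⟩
    rw [← adL_apply, map_add, adL_apply, adL_apply, hX.2 E hE, hY.2 E hE, add_zero]
  smul_mem' := by
    intro c X hX
    refine ⟨Submodule.smul_mem _ _ hX.1, fun E hE => ?_⟩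
    rw [← adL_apply, map_smul, adL_apply, hX.2 E hE, smul_zero]

theorem add_notMem {L : AddSubgroup (Euc k)} {β γ : Euc k} (hβ : β ∈ (L : Set (Euc k))ᶜ)
    (hγ : γ ∈ (L : Set (Euc k))) : β + γ ∈ (L : Set (Euc k))ᶜ :=
  fun h => hβ (by simpa using L.sub_mem h hγ)

variable (hg : IsSub D.g)
include hg

theorem prS_grS (S : Set (Euc k)) {X : Mat n} (hX : X ∈ D.g) : D.prS S X ∈ D.grS S :=
  ⟨prS_mem D (fun s _ hY => hg _ (D.dg_mem s) _ hY) _ hX, prS_wt D _ _⟩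

theorem zed_isIdl (L : AddSubgroup (Euc k)) : IsIdl D.g (zed D L) := by
  refine ⟨fun X hX => hX.1.1, fun Y hY X hX => ?_⟩
  have h1 := prS_grS D hg L hY
  rw [← prS_add_compl D L Y, br_add_left, hX.2 _ (prS_grS D hg _ hY), add_zero]
  refine ⟨⟨hg _ h1.1 _ hX.1.1, br_wt D h1.2 hX.1.2 fun β hβ γ hγ => L.add_mem hβ hγ⟩,
    fun E hE => ?_⟩
  have h2 : ⁅E, D.prS L Y⁆ ∈ D.grS (L : Set (Euc k))ᶜ :=
    ⟨hg _ hE.1 _ h1.1, br_wt D hE.2 h1.2 fun β hβ γ hγ => add_notMem hβ hγ⟩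
  have h3 := jac E (D.prS L Y) X
  rw [hX.2 _ h2, hX.2 _ hE, ← adL_apply _ 0, map_zero, sub_zero] at h3
  exact h3.symm

theorem eq_zero_of_roots {s : Euc k} (h : ∀ β ∈ D.roots, ⟪β, s⟫ = 0) : s = 0 := by
  have : D.dg s = 0 := by
    refine D.cent _ (D.dg_mem s) fun Y hY => ?_
    rw [br_dg]
    refine Finset.sum_eq_zero fun γ _ => ?_
    by_cases hγ : γ ∈ D.roots
    · rw [h γ hγ, zero_smul]
    · rw [mem_roots, not_and_or, not_not, not_not] at hγ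
      rcases hγ with rfl | hγ
      · simp
      · have : D.pr γ Y ∈ D.gr γ := prS_grS D hg _ hY
        rw [hγ, Submodule.mem_bot] at this
        rw [this, smul_zero]
  rw [← inner_self_eq_zero (𝕜 := ℝ), ← ip_dg D, this, ip_zero_left]

omit hg in
theorem inner_eq_zero_of_br {β s : Euc k} (hβ : β ∈ D.roots)
    (h : ∀ E ∈ D.gr β, ⁅E, D.dg s⁆ = 0) : ⟪β, s⟫ = 0 := by
  obtain ⟨E, hE, h0⟩ := (Submodule.ne_bot_iff _).1 ((mem_roots D).1 hβ).2
  have := h E hE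
  rw [br_neg, br_dg_of_mem D hE.2, neg_eq_zero] at this
  exact (smul_eq_zero.1 this).resolve_right h0

theorem zed_bot : zed D ⊥ = ⊥ := by
  by_contra h
  obtain ⟨X, hX, Y, -, hs, -, -, hl⟩ := D.rank _ (zed_isIdl D hg ⊥) h
  obtain ⟨s, rfl⟩ := D.max' X hX.1.1 hs fun i j hij => sub_eq_zero.1 (hX.1.2 i j hij)
  have : s = 0 := eq_zero_of_roots D hg fun β hβ => inner_eq_zero_of_br D hβ fun E hE =>
    hX.2 E (gr_le_grS D (show β ∈ ((⊥ : AddSubgroup (Euc k)) : Set (Euc k))ᶜ from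
      ((mem_roots D).1 hβ).1) hE)
  have h0 := hl.ne_zero 0
  rw [← D.dg_apply, this, map_zero] at h0
  exact h0 rfl

variable (hT : ∀ X ∈ D.g, Xᵀ ∈ D.g)
include hT

/-- If every root in `L` pairs nontrivially with a root off `L`, nothing commutes with the weight
vectors off `L`. -/
theorem zed_eq_bot {L : AddSubgroup (Euc k)}
    (hL : ∀ β ∈ D.roots, β ∈ L → ∃ α ∈ D.roots, α ∉ L ∧ ⟪α, β⟫ ≠ 0) : zed D L = ⊥ := by
  have hI := zed_isIdl D hg L
  have h1 : ∀ β, β ≠ 0 → ∀ E ∈ D.gr β, E ∈ zed D L → E = 0 := by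
    intro β hβ E hE hz
    by_contra h0
    have hr : β ∈ D.roots := (mem_roots D).2 ⟨hβ, (Submodule.ne_bot_iff _).2 ⟨E, hE, h0⟩⟩
    obtain ⟨i, j, hij⟩ : ∃ i j, E i j ≠ 0 := by
      by_contra hc
      push Not at hc
      exact h0 (Matrix.ext hc)
    obtain ⟨α, hα, hαL, hne⟩ := hL β hr
      ((show D.lam i - D.lam j = β from hE.2 i j hij) ▸ hz.1.2 i j hij)
    have h2 : ⁅E, Eᵀ⁆ ∈ zed D L := by
      rw [br_neg]
      exact neg_mem (hI.2 _ (hT _ hE.1) _ hz)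
    rw [br_tr D hg hT hE, ← map_smul] at h2
    have := inner_eq_zero_of_br D hα fun F hF => h2.2 F (gr_le_grS D hαL hF)
    rw [real_inner_smul_right] at this
    exact mul_ne_zero (ip_self_pos h0).ne' hne this
  rw [eq_bot_iff, ← zed_bot D hg]
  intro X hX
  have hp : ∀ S, D.prS S X ∈ zed D L :=
    fun S => prS_mem D (fun s _ hY => hI.2 _ (D.dg_mem s) _ hY) S hX
  have h0 : X ∈ D.wtS {0} := by
    intro i j hij
    by_contra hne
    have := h1 _ hne _ (prS_grS D hg _ hX.1.1) (hp _)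
    have h3 := congrFun (congrFun this i) j
    rw [D.prS_apply, if_pos (mem_singleton _)] at h3
    exact hij h3
  refine ⟨⟨hX.1.1, h0⟩, fun E hE => ?_⟩
  rw [br_neg, neg_eq_zero, ← adL_apply]
  refine grS_le D hg (q := LinearMap.ker (adL X)) (fun γ hγ F hF => ?_) hE
  rw [LinearMap.mem_ker, adL_apply, br_neg, neg_eq_zero]
  refine h1 γ hγ _ ⟨hg _ hF.1 _ hX.1.1, br_wt D hF.2 h0 fun β hβ δ hδ => ?_⟩ (hI.2 _ hF.1 _ hX)
  rw [show δ = 0 from hδ, add_zero]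
  exact hβ

/-- The weight vectors off `L` generate the Lie algebra. -/
theorem le_of_zed {L : AddSubgroup (Euc k)} (hL : zed D L = ⊥) {q : Submodule ℝ (Mat n)}
    (hqg : q ≤ D.g) (hq : IsSub q) (h : D.grS (L : Set (Euc k))ᶜ ≤ q) : D.g ≤ q := by
  refine le_of_orth hqg fun X hX ho => ?_
  have h1 : D.prS (L : Set (Euc k))ᶜ X = 0 := by
    rw [← ip_self_eq_zero, ← ip_prS]
    exact ho _ (h (prS_grS D hg _ hX))
  have h2 : X ∈ D.wtS L := by
    rw [← prS_add_compl D L X, h1, add_zero]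
    exact prS_wt D _ _
  rw [← Submodule.mem_bot ℝ, ← hL]
  refine ⟨⟨hX, h2⟩, fun E hE => ?_⟩
  rw [← ip_self_eq_zero, ip_br]
  refine ho _ (hq _ (h ⟨hT _ hE.1, tr_wt D hE.2 fun β hβ hb => hβ ?_⟩) _
    (h ⟨hg _ hE.1 _ hX, br_wt D hE.2 h2 fun β hβ γ hγ => add_notMem hβ hγ⟩))
  simpa using L.neg_mem hb

omit hT in
theorem grS_le_of_np {S : Set (Euc k)} (hS : (0 : Euc k) ∉ S) {H : Euc k}
    (hH : ∀ β ∈ D.roots, β ∈ S → ⟪β, H⟫ ≠ 0) {q : Submodule ℝ (Mat n)} (h1 : D.np H ≤ q)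
    (h2 : D.np (-H) ≤ q) : D.grS S ≤ q := by
  refine grS_le D hg fun γ hγ => ?_
  by_cases hb : D.gr γ = ⊥
  · rw [hb]
    exact bot_le
  have hr : γ ∈ D.roots := (mem_roots D).2 ⟨fun h => hS (h ▸ hγ), hb⟩
  rcases (hH γ hr hγ).lt_or_gt with h | h
  · refine (gr_le_grS D (S := {γ | 0 < ⟪γ, -H⟫}) ?_).trans h2
    rw [mem_ofPred_eq, inner_neg_right]
    linarith
  · exact (gr_le_grS D (S := {γ | 0 < ⟪γ, H⟫}) h).trans h1

variable {q : Submodule ℝ (Mat n)} (hqg : q ≤ D.g) (hq : IsSub q) (ha : ∀ s, D.dg s ∈ q)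
include hqg hq ha

theorem wsum_nonneg_of_smul {β : Euc k}
    (h : ∃ c : ℝ, 0 < c ∧ ∃ X, X ≠ 0 ∧ X ∈ D.gr (c • β) ∧ X ∈ q) : 0 ≤ ⟪β, wsum D q⟫ := by
  obtain ⟨c, hc, X, h0, h1, h2⟩ := h
  have := wsum_nonneg D hg hT hqg hq ha ((Submodule.ne_bot_iff _).2 ⟨X, ⟨h1, h2⟩, h0⟩)
  rw [real_inner_smul_left] at this
  exact nonneg_of_mul_nonneg_right this hc

/-- A subalgebra containing the Cartan subspace and a maximal horospherical algebra is everything,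
or misses all the classes of roots in an open half space. -/
theorem trace_trick {H : Euc k} (hH : ∀ β ∈ D.roots, ⟪β, H⟫ ≠ 0) (hn : D.np H ≤ q) :
    D.g ≤ q ∨ ∃ r, (∃ β ∈ D.roots, ⟪β, r⟫ < 0) ∧
      ∀ β, ⟪β, r⟫ < 0 → ¬∃ c : ℝ, 0 < c ∧ ∃ X, X ≠ 0 ∧ X ∈ D.gr (c • β) ∧ X ∈ q := by
  by_cases h : ∃ β ∈ D.roots, ⟪β, wsum D q⟫ < 0
  · exact Or.inr ⟨_, h, fun β hβ hc => (wsum_nonneg_of_smul D hg hT hqg hq ha hc).not_gt hβ⟩
  push Not at h
  have h0 := np_neg_le D hg hT hn (by rw [wsum_eq_zero D hT h, inner_zero_left])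
  exact Or.inl (le_of_zed D hg hT (zed_bot D hg) hqg hq
    (grS_le_of_np D hg (notMem_compl_iff.2 (zero_mem _)) (fun β hβ _ => hH β hβ) hn h0))

/-- The blocked case: all classes off `L` meet `q`. -/
theorem blocked_alg {L : AddSubgroup (Euc k)}
    (hL : ∀ β ∈ D.roots, β ∈ L → ∃ α ∈ D.roots, α ∉ L ∧ ⟪α, β⟫ ≠ 0) {H : Euc k}
    (hH : ∀ β ∈ D.roots, β ∉ L → ⟪β, H⟫ ≠ 0) (hn : D.np H ≤ q)
    (hD : ∀ β ∈ D.roots, β ∉ L → ∃ c : ℝ, 0 < c ∧ ∃ X, X ≠ 0 ∧ X ∈ D.gr (c • β) ∧ X ∈ q) :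
    D.g ≤ q := by
  have hz := zed_eq_bot D hg hT hL
  have h1 : ∀ β ∈ D.roots, β ∉ L → ⟪β, wsum D q⟫ = 0 := fun β hβ hb => by
    have h2 := wsum_nonneg_of_smul D hg hT hqg hq ha (hD β hβ hb)
    have h3 := wsum_nonneg_of_smul D hg hT hqg hq ha
      (hD _ (neg_mem_roots D hT hβ) fun h => hb (by simpa using L.neg_mem h))
    rw [inner_neg_left] at h3
    linarith
  have h2 : D.dg (wsum D q) ∈ zed D L := by
    refine ⟨⟨D.dg_mem _, fun i j hij => ?_⟩, fun E hE => ?_⟩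
    · obtain rfl : i = j := by
        by_contra hne
        exact hij (by rw [D.dg_apply, Matrix.diagonal_apply_ne _ hne])
      rw [sub_self]
      exact L.zero_mem
    · rw [br_neg, neg_eq_zero, ← adL_apply]
      refine grS_le D hg (q := LinearMap.ker (adL _)) (fun γ hγ F hF => ?_) hE
      rw [LinearMap.mem_ker, adL_apply, br_dg_of_mem D hF.2]
      by_cases h0 : F = 0
      · rw [h0, smul_zero]
      · rw [h1 γ ((mem_roots D).2 ⟨fun h => hγ (h ▸ L.zero_mem),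
          (Submodule.ne_bot_iff _).2 ⟨F, hF, h0⟩⟩) hγ, zero_smul]
  rw [hz, Submodule.mem_bot] at h2
  have h3 : wsum D q = 0 := by
    rw [← inner_self_eq_zero (𝕜 := ℝ), ← ip_dg D, h2, ip_zero_left]
  have h0 := np_neg_le D hg hT hn (by rw [h3, inner_zero_left])
  exact le_of_zed D hg hT hz hqg hq
    (grS_le_of_np D hg (notMem_compl_iff.2 L.zero_mem) hH hn h0)

end Pool.Agent.P.MP_d483fb_an.Z.Avg
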