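import Pool.Agent.P.MP_d483fb_an.Z.Lie.Defs

/-!
Induction over sectors of a finite symmetric set of vectors: starting from the empty sector one adds
one class of positively proportional vectors at a time until a half space is reached.
-/

open scoped InnerProductSpace RealInnerProductSpace Topology
open Filter Set

noncomputable section

namespace Pool.Agent.P.MP_d483fb_an.Z

/-- The class of `ga` may be added to the sector `R`. -/
def AddCls {r : ℕ} (Phi : Finset (Euc r)) (R : Set (Euc r)) (ga : Euc r) : Prop :=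
  ga ∈ Phi ∧ ∃ P Q : Euc r, 0 < ⟪ga, P⟫ ∧ ⟪ga, Q⟫ = 0 ∧
    R = {l | l ∈ Phi ∧ 0 < ⟪l, P⟫ ∧ 0 < ⟪l, Q⟫} ∧
    ∀ l ∈ Phi, 0 < ⟪l, P⟫ → ⟪l, Q⟫ = 0 → l ∈ Std.cls ga

namespace Sector

variable {r : ℕ}

/-- A generic pair. -/
def Gen (Phi : Finset (Euc r)) (P Q : Euc r) : Prop :=
  (∀ l ∈ Phi, ⟪l, P⟫ ≠ 0) ∧ (∀ l ∈ Phi, ⟪l, Q⟫ ≠ 0) ∧
    ∀ l ∈ Phi, ∀ m ∈ Phi, ⟪l, P⟫ * ⟪m, Q⟫ = ⟪l, Q⟫ * ⟪m, P⟫ → ∃ c : ℝ, m = c • l

/-- The sector of a pair. -/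
def Sec (Phi : Finset (Euc r)) (P Q : Euc r) : Set (Euc r) :=
  {l | l ∈ Phi ∧ 0 < ⟪l, P⟫ ∧ 0 < ⟪l, Q⟫}

open Classical in
/-- The vectors that are still missing. -/
def Nn (Phi : Finset (Euc r)) (P Q : Euc r) : Finset (Euc r) :=
  Phi.filter fun l => 0 < ⟪l, P⟫ ∧ ⟪l, Q⟫ < 0

theorem mem_Nn {Phi : Finset (Euc r)} {P Q l : Euc r} :
    l ∈ Nn Phi P Q ↔ l ∈ Phi ∧ 0 < ⟪l, P⟫ ∧ ⟪l, Q⟫ < 0 := by
  simp [Nn]

theorem Gen.symm {Phi : Finset (Euc r)} {P Q : Euc r} (h : Gen Phi P Q) : Gen Phi Q P :=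
  ⟨h.2.1, h.1, fun l hl m hm e => h.2.2 l hl m hm e.symm⟩

theorem Sec_symm (Phi : Finset (Euc r)) (P Q : Euc r) : Sec Phi P Q = Sec Phi Q P := by
  ext l
  simp only [Sec, mem_ofPred_eq]
  tauto

theorem card_Nn_symm {Phi : Finset (Euc r)} (hneg : ∀ l ∈ Phi, -l ∈ Phi) (P Q : Euc r) :
    (Nn Phi Q P).card = (Nn Phi P Q).card := by
  refine Finset.card_bij (fun l _ => -l) (fun l hl => ?_) (fun a _ b _ h => neg_injective h)
    fun b hb => ⟨-b, ?_, neg_neg b⟩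
  · rw [mem_Nn] at hl ⊢
    simp only [inner_neg_left]
    exact ⟨hneg _ hl.1, by linarith [hl.2.2], by linarith [hl.2.1]⟩
  · rw [mem_Nn] at hb ⊢
    simp only [inner_neg_left]
    exact ⟨hneg _ hb.1, by linarith [hb.2.2], by linarith [hb.2.1]⟩

theorem small (Phi : Finset (Euc r)) (a b : Euc r → ℝ) :
    ∃ ε : ℝ, 0 < ε ∧ ∀ l ∈ Phi, (0 < a l → 0 < a l + ε * b l) ∧ (a l < 0 → a l + ε * b l < 0) := by
  have h : ∀ᶠ ε in 𝓝[>] (0 : ℝ), ∀ l ∈ Phi,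
      (0 < a l → 0 < a l + ε * b l) ∧ (a l < 0 → a l + ε * b l < 0) := by
    rw [eventually_all_finset]
    intro l _
    have ht : Tendsto (fun ε : ℝ => a l + ε * b l) (𝓝[>] 0) (𝓝 (a l)) := by
      have : Continuous fun ε : ℝ => a l + ε * b l := by fun_prop
      simpa using (this.tendsto 0).mono_left nhdsWithin_le_nhds
    refine Eventually.and ?_ ?_
    · by_cases h : 0 < a l
      · exact (ht.eventually (lt_mem_nhds h)).mono fun _ h' _ => h'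
      · exact Eventually.of_forall fun _ h' => absurd h' h
    · by_cases h : a l < 0
      · exact (ht.eventually (gt_mem_nhds h)).mono fun _ h' _ => h'
      · exact Eventually.of_forall fun _ h' => absurd h' h
  obtain ⟨ε, h1, h2⟩ := (h.and self_mem_nhdsWithin).exists
  exact ⟨ε, h2, h1⟩

theorem avoid {ι : Type} [Finite ι] (v : ι → Euc r) (hv : ∀ i, v i ≠ 0) :
    ∃ P : Euc r, ∀ i, ⟪v i, P⟫ ≠ 0 :=
  Module.Dual.exists_forall_ne_zero_of_forall_exists (fun i => (innerSL ℝ (v i)).toLinearMap)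
    fun i => ⟨v i, by simpa using hv i⟩

theorem start {Phi : Finset (Euc r)} (h0 : ∀ l ∈ Phi, l ≠ 0) :
    ∃ P Q, Gen Phi P Q ∧ Sec Phi P Q = ∅ := by
  obtain ⟨P, hP⟩ := avoid (fun l : Phi => l.1) fun l => h0 _ l.2
  obtain ⟨V, hV⟩ := avoid
    (fun p : {p : Phi × Phi // ¬ ∃ c : ℝ, p.2.1 = c • p.1.1} =>
      ⟪p.1.1.1, P⟫ • p.1.2.1 - ⟪p.1.2.1, P⟫ • p.1.1.1) fun p h => p.2
        ⟨⟪p.1.2.1, P⟫ / ⟪p.1.1.1, P⟫, by
          rw [sub_eq_zero] at h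
          rw [div_eq_inv_mul, mul_smul, ← h, smul_smul, inv_mul_cancel₀ (hP p.1.1), one_smul]⟩
  obtain ⟨ε, hε, hs⟩ := small Phi (fun l => -⟪l, P⟫) fun l => ⟪l, V⟫
  have e : ∀ l : Euc r, ⟪l, -P + ε • V⟫ = -⟪l, P⟫ + ε * ⟪l, V⟫ := fun l => by
    rw [inner_add_right, inner_neg_right, inner_smul_right]
  refine ⟨P, -P + ε • V, ⟨fun l hl => hP ⟨l, hl⟩, fun l hl => ?_, fun l hl m hm h => ?_⟩, ?_⟩
  · rw [e]
    rcases lt_or_gt_of_ne (hP ⟨l, hl⟩) with h | h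
    · exact ((hs l hl).1 (by simpa using h)).ne'
    · exact ((hs l hl).2 (by simpa using h)).ne
  · by_contra hc
    apply hV ⟨(⟨l, hl⟩, ⟨m, hm⟩), hc⟩
    rw [e, e] at h
    simp only [inner_sub_left, real_inner_smul_left]
    apply mul_left_cancel₀ hε.ne'
    linarith
  · refine eq_empty_of_forall_notMem fun l ⟨hl, h1, h2⟩ => ?_
    rw [e] at h2
    linarith [(hs l hl).2 (by simpa using h1)]

theorem step {Phi : Finset (Euc r)} {P Q : Euc r} (h : Gen Phi P Q) (hne : (Nn Phi P Q).Nonempty) :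
    ∃ ga ∈ Nn Phi P Q, (∀ l ∈ Nn Phi P Q, ⟪ga, P⟫ * ⟪l, Q⟫ ≤ ⟪ga, Q⟫ * ⟪l, P⟫) ∧
      AddCls Phi (Sec Phi P Q) ga ∧ ∃ Q', Gen Phi P Q' ∧
        Sec Phi P Q' = Sec Phi P Q ∪ {l | l ∈ Phi ∧ l ∈ Std.cls ga} ∧
        (Nn Phi P Q').card < (Nn Phi P Q).card := by
  obtain ⟨ga, hga, hmin⟩ := Finset.exists_min_image _ (fun l => -⟪l, Q⟫ / ⟪l, P⟫) hne
  obtain ⟨g1, g2, g3⟩ := mem_Nn.mp hga
  obtain ⟨t, ht⟩ : ∃ t, t = -⟪ga, Q⟫ / ⟪ga, P⟫ := ⟨_, rfl⟩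
  have t0 : 0 < t := ht ▸ div_pos (by linarith) g2
  have tg : ⟪ga, Q⟫ + t * ⟪ga, P⟫ = 0 := by
    rw [ht]
    field_simp
    ring
  have tl : ∀ l ∈ Nn Phi P Q, ⟪l, Q⟫ + t * ⟪l, P⟫ ≤ 0 := fun l hl => by
    have := hmin l hl
    rw [← ht, le_div_iff₀ (mem_Nn.mp hl).2.1] at this
    linarith
  have e : ∀ (l : Euc r) (s : ℝ), ⟪l, Q + s • P⟫ = ⟪l, Q⟫ + s * ⟪l, P⟫ := fun l s => by
    rw [inner_add_right, inner_smul_right]
  have hpos : ∀ l ∈ Phi, 0 < ⟪l, P⟫ → (0 < ⟪l, Q⟫ + t * ⟪l, P⟫ ↔ 0 < ⟪l, Q⟫) := fun l hl hp => by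
    refine ⟨fun h1 => ?_, fun h1 => by positivity⟩
    rcases lt_or_gt_of_ne (h.2.1 l hl) with h2 | h2
    · linarith [tl l (mem_Nn.mpr ⟨hl, hp, h2⟩)]
    · exact h2
  have hcls : ∀ l ∈ Phi, 0 < ⟪l, P⟫ → ⟪l, Q⟫ + t * ⟪l, P⟫ = 0 → l ∈ Std.cls ga :=
    fun l hl hp h1 => by
      obtain ⟨c, hc⟩ := h.2.2 ga g1 l hl (by
        rw [eq_neg_of_add_eq_zero_left h1, eq_neg_of_add_eq_zero_left tg]
        ring)
      refine ⟨c, ?_, hc⟩
      rw [hc, real_inner_smul_left] at hp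
      exact pos_of_mul_pos_left hp g2.le
  obtain ⟨ε, hε, hs⟩ := small Phi (fun l => ⟪l, Q⟫ + t * ⟪l, P⟫) fun l => ⟪l, P⟫
  have e' : ∀ l : Euc r, ⟪l, Q + (t + ε) • P⟫ = ⟪l, Q⟫ + t * ⟪l, P⟫ + ε * ⟪l, P⟫ := fun l => by
    rw [e]
    ring
  refine ⟨ga, hga, fun l hl => ?_, ⟨g1, P, Q + t • P, g2, by rw [e, tg], ?_, fun l hl hp h1 =>
    hcls l hl hp (by rwa [e] at h1)⟩, Q + (t + ε) • P, ⟨h.1, fun l hl => ?_, fun l hl m hm h1 =>
    h.2.2 l hl m hm ?_⟩, ?_, ?_⟩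
  · rw [eq_neg_of_add_eq_zero_left tg]
    nlinarith [tl l hl]
  · ext l
    simp only [Sec, mem_ofPred_eq, e]
    exact and_congr_right fun hl => and_congr_right fun hp => (hpos l hl hp).symm
  · rw [e']
    rcases lt_trichotomy (⟪l, Q⟫ + t * ⟪l, P⟫) 0 with h1 | h1 | h1
    · exact ((hs l hl).2 h1).ne
    · rw [h1, zero_add]
      exact mul_ne_zero hε.ne' (h.1 l hl)
    · exact ((hs l hl).1 h1).ne'
  · rw [e, e] at h1
    linarith
  · ext l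
    simp only [Sec, mem_ofPred_eq, e', mem_union]
    constructor
    · rintro ⟨hl, hp, h1⟩
      rcases lt_trichotomy (⟪l, Q⟫ + t * ⟪l, P⟫) 0 with h2 | h2 | h2
      · linarith [(hs l hl).2 h2]
      · exact Or.inr ⟨hl, hcls l hl hp h2⟩
      · exact Or.inl ⟨hl, hp, (hpos l hl hp).mp h2⟩
    · rintro (⟨hl, hp, h1⟩ | ⟨hl, c, hc, rfl⟩)
      · exact ⟨hl, hp, by positivity⟩
      · simp only [real_inner_smul_left]
        refine ⟨hl, by positivity, ?_⟩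
        rw [eq_neg_of_add_eq_zero_left tg]
        nlinarith [mul_pos hε (mul_pos hc g2)]
  · refine Finset.card_lt_card ⟨fun l hl => ?_, fun hsub => ?_⟩
    · obtain ⟨hl, hp, h1⟩ := mem_Nn.mp hl
      rw [e'] at h1
      exact mem_Nn.mpr ⟨hl, hp, by nlinarith [mul_pos hε hp, mul_pos t0 hp]⟩
    · have := (mem_Nn.mp (hsub hga)).2.2
      rw [e', tg] at this
      linarith [mul_pos hε g2]

end Sector

open Sector in
theorem sector_induction {r : ℕ} (Phi : Finset (Euc r)) (h0 : ∀ l ∈ Phi, l ≠ 0)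
    (hneg : ∀ l ∈ Phi, -l ∈ Phi) (Bad : Set (Euc r) → Prop) (hemp : Bad ∅)
    (hfull : ∀ P, (∀ l ∈ Phi, ⟪l, P⟫ ≠ 0) → ¬ Bad {l | l ∈ Phi ∧ 0 < ⟪l, P⟫})
    (hone : ∀ R ga, AddCls Phi R ga → (∀ l ∈ Phi, l ∈ R ∨ -l ∈ R ∨ ∃ c : ℝ, l = c • ga) → Bad R →
      Bad (R ∪ {l | l ∈ Phi ∧ l ∈ Std.cls ga}))
    (htwo : ∀ R ga ga2, AddCls Phi R ga → AddCls Phi R ga2 → (¬ ∃ c : ℝ, ga2 = c • ga) → Bad R →
      Bad (R ∪ {l | l ∈ Phi ∧ l ∈ Std.cls ga}) ∨ Bad (R ∪ {l | l ∈ Phi ∧ l ∈ Std.cls ga2})) :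
    False := by
  have key : ∀ N : ℕ, ∀ P Q, Gen Phi P Q → (Nn Phi P Q).card = N → ¬ Bad (Sec Phi P Q) := by
    intro N
    induction N using Nat.strong_induction_on with
    | _ N ih =>
    intro P Q h hN hb
    rcases (Nn Phi P Q).eq_empty_or_nonempty with he | hne
    · refine hfull P h.1 ?_
      convert hb using 1
      ext l
      simp only [Sec, mem_ofPred_eq]
      refine and_congr_right fun hl => ⟨fun hp => ⟨hp, ?_⟩, fun hp => hp.1⟩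
      rcases lt_or_gt_of_ne (h.2.1 l hl) with h2 | h2
      · exact absurd (mem_Nn.mpr ⟨hl, hp, h2⟩) (by simp [he])
      · exact h2
    · have hne' : (Nn Phi Q P).Nonempty := by
        rw [← Finset.card_pos, card_Nn_symm hneg, Finset.card_pos]
        exact hne
      obtain ⟨ga, hga, hmin, hadd, Q', hQ', hS, hc⟩ := step h hne
      obtain ⟨ga2, hga2, hmin2, hadd2, P', hP', hS2, hc2⟩ := step h.symm hne'
      rw [Sec_symm Phi Q P] at hadd2 hS2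
      rw [card_Nn_symm hneg P Q] at hc2
      have n1 := ih _ (hN ▸ hc) P Q' hQ' rfl
      have n2 := ih _ (hN ▸ hc2) Q P' hP' rfl
      rw [hS] at n1
      rw [hS2] at n2
      by_cases hp : ∃ c : ℝ, ga2 = c • ga
      · obtain ⟨c, rfl⟩ := hp
        obtain ⟨g1, g2, g3⟩ := mem_Nn.mp hga
        have c0 : c < 0 := by
          have := (mem_Nn.mp hga2).2.2
          rw [real_inner_smul_left] at this
          exact neg_of_mul_neg_left this g2.le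
        have all : ∀ l ∈ Nn Phi P Q, ∃ c : ℝ, l = c • ga := fun l hl => by
          obtain ⟨l1, l2, l3⟩ := mem_Nn.mp hl
          have a1 := hmin l hl
          have a2 := hmin2 (-l) (mem_Nn.mpr ⟨hneg l l1, by
            rw [inner_neg_left]
            linarith, by
            rw [inner_neg_left]
            linarith⟩)
          simp only [inner_neg_left, real_inner_smul_left] at a2
          exact h.2.2 ga g1 l l1 (le_antisymm a1 (by nlinarith))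
        refine n1 (hone _ _ hadd (fun l hl => ?_) hb)
        rcases lt_or_gt_of_ne (h.1 l hl) with a | a <;>
          rcases lt_or_gt_of_ne (h.2.1 l hl) with b | b
        · exact Or.inr (Or.inl ⟨hneg l hl, by simpa using a, by simpa using b⟩)
        · obtain ⟨c, hc⟩ := all (-l) (mem_Nn.mpr ⟨hneg l hl, by simpa using a, by simpa using b⟩)
          exact Or.inr (Or.inr ⟨-c, by rw [neg_smul, ← hc, neg_neg]⟩)
        · exact Or.inr (Or.inr (all l (mem_Nn.mpr ⟨hl, a, b⟩)))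
        · exact Or.inl ⟨hl, a, b⟩
      · exact (htwo _ _ _ hadd hadd2 hp hb).elim n1 n2
  obtain ⟨P, Q, h, hS⟩ := start h0
  exact key _ P Q h rfl (hS ▸ hemp)

end Pool.Agent.P.MP_d483fb_an.Z
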