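import Pool.Agent.P.MP_d483fb_an.Z.Lie.Closed

/-!
The solvable group `A N`: a family of closed subgroups that is stable under adding commuting
normalising elements has a member containing `A N`.
-/

open scoped Matrix Matrix.Norms.Operator InnerProductSpace RealInnerProductSpace Topology
open NormedSpace Filter Set

set_option linter.unusedSectionVars false

noncomputable section

namespace Pool.Agent.P.MP_d483fb_an.Z

/-- A family of closed subgroups to which commuting normalising elements can be added. -/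
structure Fam {G : Type} [Group G] [TopologicalSpace G] (F : Set (Subgroup G)) : Prop where
  closed : ∀ Q ∈ F, IsClosed (Q : Set G)
  add : ∀ Q ∈ F, ∀ H : Subgroup G, H ≤ Q → ∀ C : Set G, (∀ c ∈ C, ∀ c' ∈ C, c * c' = c' * c) →
    (∀ c ∈ C, ∀ h ∈ H, c⁻¹ * h * c ∈ H) → ∃ Q' ∈ F, H ≤ Q' ∧ C ⊆ Q'

variable {G : Type} [Group G] [TopologicalSpace G] [IsTopologicalGroup G] {n k : ℕ}
  {F : Set (Subgroup G)}

theorem an_br_smul_left (t : ℝ) (Y Z : Mat n) : ⁅t • Y, Z⁆ = t • ⁅Y, Z⁆ := by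
  simp only [Ring.lie_def, smul_mul_assoc, mul_smul_comm, smul_sub]

theorem ExpData.an_ex_mem_grp (D : ExpData G n) {v : Submodule ℝ (Mat n)} {X : Mat n} (hX : X ∈ v) :
    D.ex X ∈ D.grp v := Subgroup.subset_closure ⟨X, hX, rfl⟩

theorem ExpData.an_grp_conj (D : ExpData G n) {v : Submodule ℝ (Mat n)} (hv : v ≤ D.g) {Y : Mat n}
    (hY : Y ∈ D.g) (h : ∀ Z ∈ v, ⁅Y, Z⁆ ∈ v) {y : G} (hy : y ∈ D.grp v) :
    (D.ex Y)⁻¹ * y * D.ex Y ∈ D.grp v := by
  have := D.grp_normal hv (x := D.ex (-Y)) (fun X hX => D.Ad_ex_mem (D.g.neg_mem hY)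
    (fun Z hZ => by rw [← neg_one_smul ℝ Y, an_br_smul_left]; exact v.smul_mem _ (h Z hZ)) hX) hy
  rwa [D.ex_neg hY, inv_inv] at this

theorem Fam.add_one (hF : Fam F) (D : ExpData G n) {v : Submodule ℝ (Mat n)} {Y : Mat n}
    (hY : Y ∈ D.g) (h : ∀ Z ∈ v, ⁅Y, Z⁆ ∈ v) (hQ : ∃ Q ∈ F, v ≤ D.lie Q) :
    ∃ Q ∈ F, v ≤ D.lie Q ∧ Y ∈ D.lie Q := by
  obtain ⟨Q, hQ, hv⟩ := hQ
  have hg : v ≤ D.g := hv.trans (D.lie_le Q)
  obtain ⟨Q', hQ', h1, h2⟩ := hF.add Q hQ (D.grp v) (D.grp_le (hF.closed Q hQ) hv)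
    (range fun t : ℝ => D.ex (t • Y))
    (by
      rintro _ ⟨s, rfl⟩ _ ⟨t, rfl⟩
      rw [← D.ex_add_smul hY, ← D.ex_add_smul hY, add_comm])
    (by
      rintro _ ⟨t, rfl⟩ y hy
      exact D.an_grp_conj hg (D.g.smul_mem t hY)
        (fun Z hZ => by rw [an_br_smul_left]; exact v.smul_mem t (h Z hZ)) hy)
  exact ⟨Q', hQ', D.le_lie hg fun X hX => h1 (D.an_ex_mem_grp hX),
    D.mem_lie_of hY fun t => h2 ⟨t, rfl⟩⟩

theorem Fam.add_sub (hF : Fam F) (D : ExpData G n) {v w : Submodule ℝ (Mat n)} (hvw : v ≤ w)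
    (hw : w ≤ D.g) (h : ∀ Y ∈ w, ∀ Z ∈ w, ⁅Y, Z⁆ ∈ v) (hQ : ∃ Q ∈ F, v ≤ D.lie Q) :
    ∃ Q ∈ F, w ≤ D.lie Q := by
  classical
  obtain ⟨T, hT⟩ : w.FG := IsNoetherian.noetherian w
  have key : ∀ T' : Finset (Mat n), (T' : Set (Mat n)) ⊆ w →
      ∃ Q ∈ F, v ⊔ Submodule.span ℝ (T' : Set (Mat n)) ≤ D.lie Q := by
    intro T'
    induction T' using Finset.induction_on with
    | empty => intro _; simpa using hQ
    | insert Y T' _ ih =>
      intro hs
      rw [Finset.coe_insert, insert_subset_iff] at hs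
      have hle : v ⊔ Submodule.span ℝ (T' : Set (Mat n)) ≤ w :=
        sup_le hvw (Submodule.span_le.mpr hs.2)
      obtain ⟨Q, hQ, h1, h2⟩ := hF.add_one D (hw hs.1)
        (fun Z hZ => Submodule.mem_sup_left (h Y hs.1 Z (hle hZ))) (ih hs.2)
      refine ⟨Q, hQ, sup_le (le_sup_left.trans h1) (Submodule.span_le.mpr ?_)⟩
      rw [Finset.coe_insert, insert_subset_iff]
      exact ⟨h2, fun Z hZ => h1 (Submodule.mem_sup_right (Submodule.subset_span hZ))⟩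
  obtain ⟨Q, hQ, h1⟩ := key T (hT ▸ Submodule.subset_span)
  exact ⟨Q, hQ, hT ▸ le_sup_right.trans h1⟩

namespace Std

variable (D : Std G n k)

theorem an_br_grS {S T R : Set (Euc k)} {X Y : Mat n} (hX : X ∈ D.grS S) (hY : Y ∈ D.grS T)
    (h : ∀ β ∈ S, ∀ γ ∈ T, β + γ ∈ R) : ⁅X, Y⁆ ∈ D.grS R := by
  refine ⟨D.br_mem hX.1 hY.1, ?_⟩
  rw [Ring.lie_def]
  exact (D.wtS R).sub_mem (D.wtS_mul hX.2 hY.2 h)
    (D.wtS_mul hY.2 hX.2 fun β hβ γ hγ => add_comm β γ ▸ h γ hγ β hβ)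

theorem an_dg_grS (s : Euc k) : D.dg s ∈ D.grS {0} := by
  refine ⟨D.dg_mem s, fun i j hij => ?_⟩
  obtain rfl : i = j := by
    by_contra hne
    exact hij (Matrix.diagonal_apply_ne _ hne)
  simp

theorem an_a_comm (s t : Euc k) : D.a s * D.a t = D.a t * D.a s := by
  have h : ∀ s t : Euc k, D.a s * D.a t = D.ex (D.dg s + D.dg t) := fun s t =>
    (D.ex_add_of_commute (D.dg_mem s) (D.dg_mem t) (by
      rw [Ring.lie_def, dg_apply, dg_apply, Matrix.diagonal_mul_diagonal,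
        Matrix.diagonal_mul_diagonal, sub_eq_zero]
      congr 1
      funext i
      exact mul_comm _ _)).symm
  rw [h, h, add_comm]

/-- A member of the family contains the horospherical group. -/
theorem fam_np (hF : Fam F) (hne : F.Nonempty) (P : Euc k) : ∃ Q ∈ F, D.np P ≤ D.lie Q := by
  classical
  obtain ⟨c, hc, hc'⟩ : ∃ c : ℝ, 0 < c ∧ ∀ i j, 0 < ⟪D.lam i - D.lam j, P⟫ →
      c ≤ ⟪D.lam i - D.lam j, P⟫ := by
    have : ∀ᶠ c in 𝓝[>] (0 : ℝ), ∀ p : Fin n × Fin n, 0 < ⟪D.lam p.1 - D.lam p.2, P⟫ →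
        c ≤ ⟪D.lam p.1 - D.lam p.2, P⟫ := by
      refine eventually_all.mpr fun p => ?_
      by_cases hp : 0 < ⟪D.lam p.1 - D.lam p.2, P⟫
      · exact ((eventually_le_nhds hp).filter_mono nhdsWithin_le_nhds).mono fun c hc _ => hc
      · exact Eventually.of_forall fun c h => absurd h hp
    obtain ⟨c, h1, h2⟩ := (this.and self_mem_nhdsWithin).exists
    exact ⟨c, h2, fun i j => h1 (i, j)⟩
  obtain ⟨m, hm⟩ : ∃ m : ℕ, ∀ p : Fin n × Fin n, ⟪D.lam p.1 - D.lam p.2, P⟫ < c * 2 ^ m := by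
    have : ∀ᶠ m : ℕ in atTop, ∀ p : Fin n × Fin n, ⟪D.lam p.1 - D.lam p.2, P⟫ < c * 2 ^ m :=
      eventually_all.mpr fun p => ((tendsto_pow_atTop_atTop_of_one_lt one_lt_two).const_mul_atTop
        hc).eventually (eventually_gt_atTop _)
    exact this.exists
  have key : ∀ j : ℕ, (∃ Q ∈ F, D.grS {γ | c * 2 ^ j ≤ ⟪γ, P⟫} ≤ D.lie Q) →
      ∃ Q ∈ F, D.grS {γ | c ≤ ⟪γ, P⟫} ≤ D.lie Q := by
    intro j
    induction j with
    | zero => simp
    | succ j ih =>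
      intro h
      have hp : 0 < c * 2 ^ j := by positivity
      refine ih (hF.add_sub D.toExpData (v := D.grS {γ | c * 2 ^ (j + 1) ≤ ⟪γ, P⟫})
        (fun X hX => ⟨hX.1, fun a b hab => ?_⟩) inf_le_left
        (fun Y hY Z hZ => D.an_br_grS hY hZ fun β hβ γ hγ => ?_) h)
      · have := hX.2 a b hab
        simp only [mem_ofPred_eq, pow_succ] at this ⊢
        linarith
      · simp only [mem_ofPred_eq, pow_succ, inner_add_left] at hβ hγ ⊢
        linarith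
  obtain ⟨Q₀, hQ₀⟩ := hne
  obtain ⟨Q, hQ, h⟩ := key m ⟨Q₀, hQ₀, fun X hX => by
    obtain rfl : X = 0 := by
      ext a b
      by_contra hab
      exact absurd (hX.2 a b hab) (not_le.mpr (hm (a, b)))
    exact zero_mem _⟩
  exact ⟨Q, hQ, fun X hX => h ⟨hX.1, fun a b hab => hc' a b (hX.2 a b hab)⟩⟩

/-- A member of the family contains `A N`. -/
theorem fam_AN (hF : Fam F) (hne : F.Nonempty) (P : Euc k) :
    ∃ Q ∈ F, D.N P ≤ Q ∧ ∀ s, D.a s ∈ Q := by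
  obtain ⟨Q, hQ, h⟩ := D.fam_np hF hne P
  obtain ⟨Q', hQ', h1, h2⟩ := hF.add Q hQ (D.N P) (D.grp_le (hF.closed Q hQ) h) (range D.a)
    (by
      rintro _ ⟨s, rfl⟩ _ ⟨t, rfl⟩
      exact D.an_a_comm s t)
    (by
      rintro _ ⟨s, rfl⟩ y hy
      exact D.an_grp_conj inf_le_left (D.dg_mem s)
        (fun Z hZ => D.an_br_grS (D.an_dg_grS s) hZ fun β hβ γ hγ => by
          rw [mem_singleton_iff.mp hβ, zero_add]; exact hγ) hy)
  exact ⟨Q', hQ', h1, fun s => h2 ⟨s, rfl⟩⟩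

theorem an_Ad_a_apply (s : Euc k) (X : Mat n) (i j : Fin n) :
    D.Ad (D.a s) X i j = Real.exp ⟪D.lam i - D.lam j, s⟫ * X i j := by
  rw [a, D.Ad_ex (D.dg_mem s), dg_apply, Matrix.diagonal_neg, Matrix.exp_diagonal,
    Matrix.exp_diagonal, Matrix.mul_diagonal, Matrix.diagonal_mul, Pi.exp_def, Pi.exp_def,
    inner_sub_left, ← Real.exp_eq_exp_ℝ, Real.exp_sub]
  simp only [Real.exp_neg]
  field_simp

/-- The horospherical group is contracted by the inverse of `a P`. -/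
theorem an_tendsto_conj (P : Euc k) {X : Mat n} (hX : X ∈ D.np P) :
    Tendsto (fun m : ℕ => D.a (-P) ^ m * D.ex X * (D.a (-P) ^ m)⁻¹) atTop (𝓝 1) := by
  have e : ∀ m : ℕ, D.a (-P) ^ m = D.a ((m : ℝ) • -P) := fun m => by
    rw [a, a, map_smul, D.ex_nsmul (D.dg_mem _)]
  simp only [e, D.conj_ex _ hX.1]
  rw [← D.ex_zero]
  refine (D.ex_cont 0 D.g.zero_mem).tendsto.comp (tendsto_nhdsWithin_iff.mpr
    ⟨?_, Eventually.of_forall fun m => D.Ad_mem _ hX.1⟩)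
  refine tendsto_pi_nhds.mpr fun i => tendsto_pi_nhds.mpr fun j => ?_
  simp only [an_Ad_a_apply, Matrix.zero_apply]
  by_cases hij : X i j = 0
  · simp [hij]
  · have hp : 0 < ⟪D.lam i - D.lam j, P⟫ := hX.2 i j hij
    rw [← zero_mul (X i j)]
    refine (Real.tendsto_exp_atBot.comp ?_).mul_const _
    simp only [inner_smul_right, inner_neg_right]
    exact tendsto_natCast_atTop_atTop.atTop_mul_const_of_neg (neg_lt_zero.mpr hp)

end Std

end Pool.Agent.P.MP_d483fb_an.Z
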