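import Pool.Agent.P.MP_d483fb_an.Z.Avg.Exit
import Pool.Agent.P.MP_d483fb_an.Z.Top.Defs

/-!
The invariant measure from the two forms of the invariance principle.
-/

open scoped Topology InnerProductSpace RealInnerProductSpace
open MeasureTheory Filter Set TopologicalSpace

noncomputable section

namespace Pool.Agent.P.MP_d483fb_an.Z

/-- The invariance principle along roots implies the principle along coarse roots. -/
theorem Std.invP_of_root {G Z : Type} [Group G] [TopologicalSpace G] [IsTopologicalGroup G]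
    {n k : ℕ} (D : Std G n k) [MeasurableSpace Z] [MulAction G Z] {m : ℕ} {ν : Measure Z}
    (w : Fin m → Euc k)
    (h : ∀ β ∈ D.roots, Nat.card {i // w i = β} < Module.finrank ℝ (D.gr β) →
      ∃ Y ∈ D.gr β, Y ≠ 0 ∧ ∀ t : ℝ, MeasurePreserving (fun x : Z => D.ex (t • Y) • x) ν ν) :
    D.InvP m ν := by
  classical
  refine ⟨Fin m, inferInstance, w, by simp, fun β hβ hlt => ?_⟩
  obtain ⟨b, hb, ⟨c, hc, hbc⟩, -, hu⟩ := D.exists_base hβ
  by_cases h1 : Nat.card {i // w i = b} < Module.finrank ℝ (D.gr b)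
  · exact ⟨c, hc, hbc ▸ h b hb h1⟩
  have hb0 : b ≠ 0 := D.root_ne_zero hb
  have hne : b ≠ (2 : ℝ) • b := fun e => hb0 (by
    rw [two_smul, left_eq_add] at e
    exact e)
  have h2c : (2 : ℝ) • b = (2 * c) • β := by rw [hbc, smul_smul]
  have hcard : Nat.card {i // w i = b} + Nat.card {i // w i = (2 : ℝ) • b} ≤
      Nat.card {i // w i ∈ Std.cls β} := by
    simp only [Nat.card_eq_fintype_card, Fintype.card_subtype]
    rw [← Finset.card_union_of_disjoint (Finset.disjoint_filter.mpr fun i _ e e' =>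
      hne (e.symm.trans e'))]
    refine Finset.card_le_card fun i hi => ?_
    simp only [Finset.mem_union, Finset.mem_filter, Finset.mem_univ, true_and] at hi ⊢
    rcases hi with e | e
    · exact ⟨c, hc, e.trans hbc⟩
    · exact ⟨2 * c, by positivity, e.trans h2c⟩
  have hrank : Module.finrank ℝ (D.u β) ≤
      Module.finrank ℝ (D.gr b) + Module.finrank ℝ (D.gr ((2 : ℝ) • b)) := by
    rw [hu]
    exact Submodule.finrank_add_le_finrank_add_finrank _ _
  have h2 : Nat.card {i // w i = (2 : ℝ) • b} < Module.finrank ℝ (D.gr ((2 : ℝ) • b)) := by omega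
  have h2r : (2 : ℝ) • b ∈ D.roots := D.mem_roots.mpr ⟨smul_ne_zero two_ne_zero hb0, fun e => by
    rw [e, finrank_bot] at h2
    omega⟩
  exact ⟨2 * c, by positivity, h2c ▸ h _ h2r h2⟩

variable {G Z X : Type} [Group G] [TopologicalSpace G] [IsTopologicalGroup G]
  [FirstCountableTopology G] [PreconnectedSpace G] {n k : ℕ}
  [TopologicalSpace Z] [T2Space Z] [PseudoMetrizableSpace Z] [MeasurableSpace Z] [BorelSpace Z]
  [MulAction G Z] [ContinuousSMul G Z]
  [TopologicalSpace X] [T2Space X] [HasOuterApproxClosed X] [MeasurableSpace X] [BorelSpace X]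
  [MulAction G X] [ContinuousConstSMul G X]
  {μ : Measure X} [IsProbabilityMeasure μ] [SMulInvariantMeasure G X μ] {π : Z → X}

/-- The invariant measure, from the principle along roots. -/
theorem Std.invariant_of_root (D : Std G n k) (hπ : IsExt G π μ)
    (h0 : ∃ ν : Measure Z, IsProbabilityMeasure ν ∧ ν.map π = μ)
    (herg : ∃ s, Ergodic (fun x : X => D.a s • x) μ) {m : ℕ} (hv : D.ltV m)
    (hD : ∀ ν : Measure Z, IsProbabilityMeasure ν → ν.map π = μ → D.InvA ν → D.ErgA ν →
      ∃ w : Fin m → Euc k, ∀ β ∈ D.roots,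
        Nat.card {i // w i = β} < Module.finrank ℝ (D.gr β) → ∃ Y ∈ D.gr β, Y ≠ 0 ∧
          ∀ t : ℝ, MeasurePreserving (fun x : Z => D.ex (t • Y) • x) ν ν) :
    ∃ ν : Measure Z, IsProbabilityMeasure ν ∧ ν.map π = μ ∧
      (∀ g : G, MeasurePreserving (fun z : Z => g • z) ν ν) ∧ D.ErgA ν :=
  D.exists_invariant hπ h0 herg hv fun ν h1 h2 h3 h4 => by
    obtain ⟨w, hw⟩ := hD ν h1 h2 h3 h4
    exact D.invP_of_root w hw

/-- The invariant measure, from the principle along coarse roots. -/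
theorem Std.invariant_of_cls (D : Std G n k) (hπ : IsExt G π μ)
    (h0 : ∃ ν : Measure Z, IsProbabilityMeasure ν ∧ ν.map π = μ)
    (herg : ∃ s, Ergodic (fun x : X => D.a s • x) μ) {m : ℕ} (hv : D.ltV m)
    (hD : ∀ ν : Measure Z, IsProbabilityMeasure ν → ν.map π = μ → D.InvA ν → D.ErgA ν →
      ∃ w : Fin m → Euc k, ∀ β ∈ D.roots,
        Nat.card {i // w i ∈ Std.cls β} < Module.finrank ℝ (D.u β) →
          ∃ c : ℝ, 0 < c ∧ ∃ Y ∈ D.gr (c • β), Y ≠ 0 ∧
            ∀ t : ℝ, MeasurePreserving (fun x : Z => D.ex (t • Y) • x) ν ν) :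
    ∃ ν : Measure Z, IsProbabilityMeasure ν ∧ ν.map π = μ ∧
      (∀ g : G, MeasurePreserving (fun z : Z => g • z) ν ν) ∧ D.ErgA ν :=
  D.exists_invariant hπ h0 herg hv fun ν h1 h2 h3 h4 => by
    obtain ⟨w, hw⟩ := hD ν h1 h2 h3 h4
    exact ⟨Fin m, inferInstance, w, by simp, hw⟩

end Pool.Agent.P.MP_d483fb_an.Z
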